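import Pool.Agent.Helper64.JH.Df

/-! # JH-D10 -/

set_option autoImplicit false
set_option linter.unusedSectionVars false
set_option linter.unusedVariables false

open Filter Topology Set Quaternion
open scoped ContDiff

namespace Pool.Agent.Helper64.JH

open Pool.Agent.Helper77.JE (Hf Pt Gd rr nu NN tt xs SS)
open Pool.Agent.Helper77.JH (Hq HzQ PtQ FrQ)
open Pool.Agent.Helper41.ALX (divg Vertical ballMetric meanCurv radial)
open Pool.Agent.Helper75.ROT (HV RH hH IsPH)

private theorem ip_h80 {n : ℕ} (q : ℍ[ℝ]) (z v : HV n) :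
    inner ℝ (RH n q z) v = inner ℝ q (hH n z v) := Pool.Agent.Helper75.ROT.inner_RH q z v

private theorem RH_one_h80 {n : ℕ} (v : HV n) : RH n 1 v = v := by
  ext i : 1
  rw [Pool.Agent.Helper75.ROT.RH_apply, mul_one]

private theorem qs_h80 (n : ℕ) : Qs (RH n) (hH n) := by
  refine ⟨RH_one_h80, fun p q v => ?_, fun q u v => ?_, ip_h80⟩
  · ext i : 1
    rw [Pool.Agent.Helper75.ROT.RH_apply, Pool.Agent.Helper75.ROT.RH_apply,
      Pool.Agent.Helper75.ROT.RH_apply, mul_assoc]
  · rw [Pool.Agent.Helper75.ROT.inner_HV, Pool.Agent.Helper75.ROT.inner_HV]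
    refine Finset.sum_congr rfl fun i _ => ?_
    rw [Pool.Agent.Helper75.ROT.RH_apply, Pool.Agent.Helper75.ROT.RH_apply,
      Pool.Agent.Helper75.ROT.inner_H, Pool.Agent.Helper75.ROT.inner_H]
    simp
    ring

private theorem finrank_h80 (n : ℕ) : Module.finrank ℝ (HV n) = 4 * (n + 1) := by
  have e := (WithLp.linearEquiv 2 ℝ (∀ _ : Fin (n + 1), ℍ[ℝ])).finrank_eq
  rw [show Module.finrank ℝ (HV n) = Module.finrank ℝ (WithLp 2 (∀ _ : Fin (n + 1), ℍ[ℝ])) from rfl,
    e, Module.finrank_pi_fintype]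
  simp [Quaternion.finrank_eq_four]
  ring

/-- `JH-D10`: the metric of quaternionic hyperbolic space. `Qs`: the lemmas of Helper75/ROT/ExH.lean (`RH n q v` is the right
multiplication in coordinates, `hH n z v = ∑ star z_a * v_a`); `det`: `Pool.Agent.Helper41.ALX.det_ball` with `Vertical` from `IsPH` (ExH.lean),
`finrank ℝ (HV n)` and the rank 4 of `P` (as in `bergman_data`, Helper77/JE/Lift.lean 1109-1133); the inverse: `ROT.inv_full`. -/
theorem quat_data {n : ℕ} {P : HV n → HV n →L[ℝ] HV n} (hP : IsPH P) :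
    Qs (RH n) (hH n) ∧ Module.finrank ℝ (HV n) + 4 = 2 * (2 * n + 4) ∧
    (∀ z : HV n, ‖z‖ < 1 → LinearMap.det (ballMetric P z : HV n →ₗ[ℝ] HV n) =
      ((1 - ‖z‖ ^ 2)⁻¹) ^ (2 * (2 * n + 4))) ∧
    (∀ z v : HV n, ‖z‖ < 1 → (ballMetric P z).inverse v =
      (1 - ‖z‖ ^ 2) • (v - RH n (hH n z v) z)) := by
  have hPH : P = Pool.Agent.Helper75.ROT.PH n := by
    funext z
    ext v i : 2
    rw [hP, Pool.Agent.Helper75.ROT.PH_apply]
    rfl
  subst hPH
  have hv := Pool.Agent.Helper75.ROT.PH_vertical n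
  refine ⟨qs_h80 n, ?_, fun z hz => ?_, fun z v hz => ?_⟩
  · rw [finrank_h80]
    ring
  · rw [Pool.Agent.Helper41.ALX.det_ball hv hz, finrank_h80]
    congr 1
    ring
  · rw [Pool.Agent.Helper75.ROT.inv_full hv hz, Pool.Agent.Helper75.ROT.PH_apply]
    congr 1
    rw [sub_sub]
    congr 1
    have h1 : hH n z v = ((hH n z v).re : ℍ[ℝ]) + (hH n z v).im := by
      rw [Quaternion.re_add_im]
    have h2 : (hH n z v).re = inner ℝ z v := by
      rw [← inner_one_q, ← ip_h80, RH_one_h80]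
    rw [h2] at h1
    have h3 : RH n (hH n z v) z = inner ℝ z v • z + RH n (hH n z v).im z := by
      conv_lhs => rw [h1]
      rw [map_add, ContinuousLinearMap.add_apply, (qs_h80 n).real]
    rw [h3]
    congr 1
    by_cases h0 : z = 0
    · rw [h0]
      simp
    · have h4 : ‖z‖ ^ 2 ≠ 0 := by
        have := norm_pos_iff.2 h0
        positivity
      rw [smul_smul, mul_inv_cancel₀ h4, one_smul]

end Pool.Agent.Helper64.JH
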