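import Pool.Agent.Helper64.JH.D4

/-! # JH-D11 -/

set_option autoImplicit false
set_option linter.unusedSectionVars false
set_option linter.unusedVariables false

open Filter Topology Set Quaternion
open scoped ContDiff

namespace Pool.Agent.Helper64.JH

open Pool.Agent.Helper77.JE (Hf Pt Gd rr nu NN tt xs SS)
open Pool.Agent.Helper77.JH (Hq HzQ PtQ FrQ)
open Pool.Agent.Helper41.ALX (divg Vertical ballMetric meanCurv radial)

variable {E : Type*} [NormedAddCommGroup E] [InnerProductSpace ℝ E] [FiniteDimensional ℝ E]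
variable {R : ℍ[ℝ] →L[ℝ] E →L[ℝ] E} {m : E →L[ℝ] E →L[ℝ] ℍ[ℝ]}

private lemma JH11_alg {s q T a : ℝ} (hs : 0 < s) (hq : s * s = q) :
    T * (1 / (2 * s) * (-(2 * (a * q)))) = -(s * (T * a)) := by
  subst hq
  field_simp

private noncomputable def JH11_i (E : Type*) [NormedAddCommGroup E] [InnerProductSpace ℝ E] :
    E →L[ℝ] (ℍ[ℝ] × E) := ContinuousLinearMap.inr ℝ ℍ[ℝ] E

private noncomputable def JH11_tr (L : Type*) [NormedAddCommGroup L] [NormedSpace ℝ L]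
    [FiniteDimensional ℝ L] : (L →L[ℝ] L) →L[ℝ] ℝ :=
  LinearMap.toContinuousLinearMap ((LinearMap.trace ℝ L).comp (ContinuousLinearMap.coeLM ℝ))

private lemma JH11_tr_apply {L : Type*} [NormedAddCommGroup L] [NormedSpace ℝ L]
    [FiniteDimensional ℝ L] (M : L →L[ℝ] L) : JH11_tr L M = LinearMap.trace ℝ L (M : L →ₗ[ℝ] L) :=
  rfl

/-- `JH-D11`: the derivative of the trace of `N` is zero in the tangential horizontal directions. Like `trace_const`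
(Helper77/JE/Lift.lean, lines 1134-1311). `u = RL R u.1 (io z) + (0, w)`, `w = u.2 - R u.1 z`; `fderiv (ff) = BQ (GG) u = 0` gives `dρ w = 0`
(`Dpr_io`); `⟪z, w⟫ = u.1.re (1 - ‖z‖²)`: from `HzQ` (orthogonal to all `X q`) `u.1 = m z u.2`; `RL R u.1 X = u.1.re X + ∑ i, (coefficient) JQ R i X`
(`q_eq`, `RL_add`, `RL_smul`); the trace of `fderiv NN X (JQ R i X) = JQ R i ∘ N - N ∘ JQ R i` is zero, that of `fderiv NN X X = - N` is `- tr N`. -/
theorem trace_const (h : Qs R m) {ρ : E → ℝ}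
    (hs : ContDiffOn ℝ 3 ρ (Metric.ball 0 1)) {z : E} (hz : ‖z‖ < 1) (h0 : ρ z = 0)
    (hr : fderiv ℝ ρ z ≠ 0) {H : ℝ} (hH : ∀ y : E, ‖y‖ < 1 → ρ y = 0 → mc R ρ y = H) :
    ∀ u, HzQ (BQ E) (JQ R) (io z) (nu (BQ E) (GG R ρ) (io z)) u →
      LinearMap.trace ℝ _ (fderiv ℝ (NN (BQ E) (GG R ρ)) (io z) u :
        (ℍ[ℝ] × E) →ₗ[ℝ] (ℍ[ℝ] × E)) = 0 := by
  classical
  have hG := gdQ h hs 0
  have hzz : ‖z‖ ^ 2 < 1 := by
    have := norm_nonneg z
    nlinarith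
  have hpos : 0 < 1 - ‖z‖ ^ 2 := by linarith
  have hX : io z ∈ UU R ρ := by
    refine ⟨?_, ?_⟩
    · have := tt_io z
      unfold tt at this
      linarith
    · rw [pr_io h]
      exact hr
  have hdz : DifferentiableAt ℝ ρ z :=
    (hs.contDiffAt (Metric.isOpen_ball.mem_nhds (by simpa using hz))).differentiableAt (by norm_num)
  have hN : ContDiffAt ℝ 1 (NN (BQ E) (GG R ρ)) (io z) :=
    hG.NN_c1.contDiffAt (hG.isOpen.mem_nhds hX)
  have hNd : DifferentiableAt ℝ (NN (BQ E) (GG R ρ)) (io z) := hN.differentiableAt (by norm_num)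
  have hxR := hG.rr_pos hX
  intro u hu
  obtain ⟨h1, h2, h3⟩ := hu
  have horth : ∀ q, BQ E u (RL R q (io z)) = 0 := (orth_iff h u (io z)).2 ⟨h1, h2⟩
  -- `u.1 = m z u.2`
  have hu1 : u.1 = m z u.2 := by
    refine ext_inner_left ℝ fun q => ?_
    have e1 := horth q
    rw [BQ_apply, RL_apply] at e1
    have e2 : inner ℝ u.2 (R q z) - inner ℝ u.1 ((1 : ℍ[ℝ]) * q) = 0 := e1
    rw [one_mul, real_inner_comm, h.inn, real_inner_comm q u.1] at e2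
    linarith
  -- the component in the ball
  set w : E := u.2 - R u.1 z with hw
  have hu' : u = RL R u.1 (io z) + JH11_i E w := by
    rw [RL_apply]
    refine Prod.ext ?_ ?_
    · show u.1 = 1 * u.1 + 0
      rw [one_mul, add_zero]
    · show u.2 = R u.1 z + w
      rw [hw]
      abel
  have hhz : inner ℝ z w = u.1.re * (1 - ‖z‖ ^ 2) := by
    have e1 : inner ℝ z u.2 = u.1.re := by
      have e2 := h.inn 1 z u.2
      rw [h.one, ← hu1, inner_one_q] at e2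
      exact e2
    have e3 : inner ℝ z (R u.1 z) = u.1.re * ‖z‖ ^ 2 := by
      have e4 := h.inn 1 z (R u.1 z)
      rw [h.one, h.mR, h.mself, inner_one_q] at e4
      rw [e4, Quaternion.coe_mul_eq_smul, Quaternion.re_smul, smul_eq_mul, mul_comm]
    rw [hw, inner_sub_right, e1, e3]
    ring
  have hdρ : fderiv ℝ ρ z w = 0 := by
    have e1 : BQ E (GG R ρ (io z)) u = 0 := by
      have e2 : BQ E u ((rr (BQ E) (GG R ρ) (io z))⁻¹ • GG R ρ (io z)) = 0 := h3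
      rw [map_smul, smul_eq_mul] at e2
      have e3 := (mul_eq_zero.1 e2).resolve_left (inv_ne_zero hxR.ne')
      rw [BQ_symm]
      exact e3
    rw [GG_B, gd_fd h hs hX.1, Dpr_io h, pr_io h] at e1
    exact e1
  -- the trace
  have t1 : HasFDerivAt (fun y => JH11_tr (ℍ[ℝ] × E) (NN (BQ E) (GG R ρ) y))
      ((JH11_tr (ℍ[ℝ] × E)).comp (fderiv ℝ (NN (BQ E) (GG R ρ)) (io z))) (io z) :=
    (JH11_tr (ℍ[ℝ] × E)).hasFDerivAt.comp (io z) hNd.hasFDerivAt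
  have hio : HasFDerivAt (io : E → ℍ[ℝ] × E) (JH11_i E) z := by
    have e1 : (io : E → ℍ[ℝ] × E) = fun y => ((1, 0) : ℍ[ℝ] × E) + JH11_i E y := by
      funext y
      show ((1, y) : ℍ[ℝ] × E) = (1 + 0, 0 + y)
      simp
    rw [e1]
    exact (JH11_i E).hasFDerivAt.const_add _
  have hsq : HasFDerivAt (fun y : E => √(1 - ‖y‖ ^ 2))
      ((1 / (2 * √(1 - ‖z‖ ^ 2))) • (-((2 : ℝ) • innerSL ℝ z))) z := by
    have e1 : HasFDerivAt (fun y : E => 1 - ‖y‖ ^ 2) (-((2 : ℝ) • innerSL ℝ z)) z := by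
      have := (hasStrictFDerivAt_norm_sq z).hasFDerivAt.const_sub (1 : ℝ)
      rwa [two_nsmul, ← two_smul ℝ] at this
    exact e1.sqrt hpos.ne'
  have hmc : HasFDerivAt (mc R ρ) (√(1 - ‖z‖ ^ 2) •
      ((JH11_tr (ℍ[ℝ] × E)).comp (fderiv ℝ (NN (BQ E) (GG R ρ)) (io z))).comp (JH11_i E) +
      JH11_tr (ℍ[ℝ] × E) (NN (BQ E) (GG R ρ) (io z)) •
        ((1 / (2 * √(1 - ‖z‖ ^ 2))) • (-((2 : ℝ) • innerSL ℝ z)))) z :=
    hsq.mul (t1.comp z hio)
  have hmc1 : ContDiffAt ℝ 1 (mc R ρ) z := by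
    have e1 : ContDiffAt ℝ 1 (fun y : E => √(1 - ‖y‖ ^ 2)) z :=
      ContDiffAt.sqrt (contDiffAt_const.sub (contDiff_norm_sq ℝ).contDiffAt) hpos.ne'
    have e2 : ContDiffAt ℝ 1 (io : E → ℍ[ℝ] × E) z := by
      have e3 : ContDiff ℝ 1 (io : E → ℍ[ℝ] × E) := contDiff_const.prodMk contDiff_id
      exact e3.contDiffAt
    exact e1.mul (((JH11_tr (ℍ[ℝ] × E)).contDiff.contDiffAt).comp z (hN.comp z e2))
  have hl := Pool.Agent.Helper77.JE.lagrange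
    (hs.contDiffAt (Metric.isOpen_ball.mem_nhds (by simpa using hz)) |>.of_le
      (by norm_num)) hmc1 h0 hr (H := H)
    (by
      filter_upwards [Metric.isOpen_ball.mem_nhds (show z ∈ Metric.ball (0 : E) 1 by simpa using hz)]
        with y hy h0
      exact hH y (by simpa using hy) h0) hdρ
  rw [hmc.fderiv] at hl
  set T : ℝ := JH11_tr (ℍ[ℝ] × E) (NN (BQ E) (GG R ρ) (io z)) with hT
  have hsp : 0 < √(1 - ‖z‖ ^ 2) := Real.sqrt_pos.2 hpos
  have hss : √(1 - ‖z‖ ^ 2) * √(1 - ‖z‖ ^ 2) = 1 - ‖z‖ ^ 2 := Real.mul_self_sqrt hpos.le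
  have hl' : √(1 - ‖z‖ ^ 2) * JH11_tr (ℍ[ℝ] × E) (fderiv ℝ (NN (BQ E) (GG R ρ)) (io z) (JH11_i E w)) +
      T * (1 / (2 * √(1 - ‖z‖ ^ 2)) * (-(2 * inner ℝ z w))) = 0 := hl
  rw [hhz] at hl'
  have k1 : JH11_tr (ℍ[ℝ] × E) (fderiv ℝ (NN (BQ E) (GG R ρ)) (io z) (JH11_i E w)) =
      T * u.1.re := by
    have k2 : T * (1 / (2 * √(1 - ‖z‖ ^ 2)) * (-(2 * (u.1.re * (1 - ‖z‖ ^ 2))))) =
        -(√(1 - ‖z‖ ^ 2) * (T * u.1.re)) := JH11_alg hsp hss
    rw [k2] at hl'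
    have k3 : √(1 - ‖z‖ ^ 2) * (JH11_tr (ℍ[ℝ] × E) (fderiv ℝ (NN (BQ E) (GG R ρ)) (io z) (JH11_i E w)) -
        T * u.1.re) = 0 := by linarith
    have k4 := (mul_eq_zero.1 k3).resolve_left hsp.ne'
    linarith
  have k5 : fderiv ℝ (NN (BQ E) (GG R ρ)) (io z) (io z) = -(NN (BQ E) (GG R ρ) (io z)) := by
    refine ContinuousLinearMap.ext fun v => ?_
    rw [hG.N2_symm hX, hG.N2_X (hfJ h 0) hX]
    rfl
  have k6 : ∀ i, JH11_tr (ℍ[ℝ] × E) (fderiv ℝ (NN (BQ E) (GG R ρ)) (io z) (JQ R i (io z))) = 0 := by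
    intro i
    have hGi := gdQ h hs i
    have k7 : fderiv ℝ (NN (BQ E) (GG R ρ)) (io z) (JQ R i (io z)) =
        (JQ R i).comp (NN (BQ E) (GG R ρ) (io z)) - (NN (BQ E) (GG R ρ) (io z)).comp (JQ R i) := by
      refine ContinuousLinearMap.ext fun v => ?_
      rw [hGi.N2_symm hX, hGi.N2_JX (hfJ h i) hX]
      rfl
    rw [k7, map_sub, JH11_tr_apply, JH11_tr_apply]
    have e1 := LinearMap.trace_mul_comm ℝ (JQ R i : (ℍ[ℝ] × E) →ₗ[ℝ] (ℍ[ℝ] × E))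
      (NN (BQ E) (GG R ρ) (io z) : (ℍ[ℝ] × E) →ₗ[ℝ] (ℍ[ℝ] × E))
    exact sub_eq_zero.2 e1
  have l0 : RL R u.1 (io z) = u.1.re • io z + (inner ℝ (uq 0) u.1 • JQ R 0 (io z) +
      inner ℝ (uq 1) u.1 • JQ R 1 (io z) + inner ℝ (uq 2) u.1 • JQ R 2 (io z)) := by
    have e1 : RL R (1 : ℍ[ℝ]) (io z) = io z := by
      have := RL_real h 1 (io z)
      rwa [one_smul, Quaternion.coe_one] at this
    conv_lhs => rw [q_eq u.1, Fin.sum_univ_three]
    rw [RL_add, RL_add, RL_add, RL_smul, RL_smul, RL_smul, RL_smul]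
    show u.1.re • RL R (1 : ℍ[ℝ]) (io z) + _ = _
    rw [e1]
    rfl
  have goal : JH11_tr (ℍ[ℝ] × E) (fderiv ℝ (NN (BQ E) (GG R ρ)) (io z) u) = 0 := by
    conv_lhs => rw [hu', l0]
    simp only [map_add, map_smul, k5, k6, k1, map_neg, ← hT, smul_eq_mul]
    ring
  exact goal

end Pool.Agent.Helper64.JH
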