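import Pool.Agent.Helper64.JH.Df

/-! # JH-D12 -/

set_option autoImplicit false
set_option linter.unusedSectionVars false
set_option linter.unusedVariables false

open Filter Topology Set Quaternion
open scoped ContDiff

namespace Pool.Agent.Helper64.JH

open Pool.Agent.Helper77.JE (Hf Pt Gd rr nu NN tt xs SS)
open Pool.Agent.Helper77.JH (Hq HzQ PtQ FrQ)

variable {E : Type*} [NormedAddCommGroup E] [InnerProductSpace ℝ E] [FiniteDimensional ℝ E]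
variable {R : ℍ[ℝ] →L[ℝ] E →L[ℝ] E} {m : E →L[ℝ] E →L[ℝ] ℍ[ℝ]}

/-- `B (X q) Y = ⟪q, hQ m X Y⟫` -/
theorem BQ_hQ (h : Qs R m) (q : ℍ[ℝ]) (X Y : ℍ[ℝ] × E) :
    BQ E (RL R q X) Y = inner ℝ q (hQ m X Y) := by
  rw [BQ_apply, RL_apply, hQ, inner_sub_right, ← h.inn]
  have h1 : inner ℝ (X.1 * q) Y.1 = inner ℝ q (star X.1 * Y.1) := by
    rw [Quaternion.inner_def, Quaternion.inner_def, star_mul, star_star, mul_assoc, re_comm X.1,
      mul_assoc]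
  rw [← h1]

/-- the norm of a quaternion in coordinates -/
theorem q_sq (p : ℍ[ℝ]) :
    inner ℝ (1 : ℍ[ℝ]) p ^ 2 + ∑ i, inner ℝ (uq i) p ^ 2 = ‖p‖ ^ 2 := by
  rw [sq ‖p‖, ← Quaternion.normSq_eq_norm_mul_self, Quaternion.normSq_def', Fin.sum_univ_three,
    inner_one_q]
  simp only [Quaternion.inner_def]
  simp [uq]
  ring

/-- `JH-D12` (a): `BQ E (RL R q X) Y = ⟪q, hQ m X Y⟫`, and `‖p‖² = ⟪1, p⟫² + ∑ ⟪uq i, p⟫²` -/
theorem hQ_sq (h : Qs R m) (X Y : ℍ[ℝ] × E) :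
    BQ E X Y ^ 2 + ∑ i, BQ E (JQ R i X) Y ^ 2 = ‖hQ m X Y‖ ^ 2 := by
  have h1 : BQ E X Y = inner ℝ (1 : ℍ[ℝ]) (hQ m X Y) := by
    rw [← BQ_hQ h]
    have e2 : RL R 1 X = X := by
      have := RL_real h 1 X
      simpa using this
    rw [e2]
  have h2 : ∀ i, BQ E (JQ R i X) Y = inner ℝ (uq i) (hQ m X Y) := fun i => BQ_hQ h (uq i) X Y
  simp only [h1, h2]
  exact q_sq _

/-- `JH-D12` (b) -/
theorem cq_eq (h : Qs R m) (a b : E) : cq R a b = ‖1 - m a b‖ ^ 2 := by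
  rw [cq, hQ_sq h, hQ]
  simp only [io, star_one, one_mul]
  rw [norm_sub_rev]

/-- `Y.2 = R Y.1 (pr R Y)` -/
theorem R_pr (h : Qs R m) {Y : ℍ[ℝ] × E} (hY : Y.1 ≠ 0) : R Y.1 (pr R Y) = Y.2 := by
  have h1 := norm_pos_iff.2 hY
  have h2 : ‖Y.1‖ ^ 2 ≠ 0 := by positivity
  unfold pr
  rw [map_smul, sc_apply, h.mul, Quaternion.star_mul_self, h.real, smul_smul,
    Quaternion.normSq_eq_norm_mul_self, ← sq, inv_mul_cancel₀ h2, one_smul]

/-- `JH-D12` (c): `hQ m (io a) Y = (m a (pr R Y) - 1) * Y.1`, since `Y.2 = R Y.1 (pr R Y)` -/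
theorem hQ_pr (h : Qs R m) (a : E) {Y : ℍ[ℝ] × E} (hY : Y.1 ≠ 0) :
    ‖hQ m (io a) Y‖ ^ 2 = ‖Y.1‖ ^ 2 * ‖1 - m a (pr R Y)‖ ^ 2 := by
  have h1 : hQ m (io a) Y = (m a (pr R Y) - 1) * Y.1 := by
    rw [hQ, sub_mul, ← h.mR, R_pr h hY]
    simp only [io, star_one]
  rw [h1, norm_mul, mul_pow, norm_sub_rev]
  ring

/-- `JH-D12` (d): (a), (b), (c), `pr_norm` -/
theorem cq_pr (h : Qs R m) {a : E} {Y : ℍ[ℝ] × E} (hY : BQ E Y Y < 0) :
    cq R a (pr R Y) * (-(BQ E Y Y)) =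
      (BQ E (io a) Y ^ 2 + ∑ i, BQ E (JQ R i (io a)) Y ^ 2) * (1 - ‖pr R Y‖ ^ 2) := by
  have h0 := (pr_ball h hY).1
  have h1 := norm_pos_iff.2 h0
  rw [hQ_sq h, cq_eq h, hQ_pr h a h0, pr_norm h h0, BQ_apply, real_inner_self_eq_norm_sq,
    real_inner_self_eq_norm_sq]
  field_simp
  ring

/-- `JH-D12` (e): `Qs.mstar`, `norm_star` -/
theorem cq_symm (h : Qs R m) (a b : E) : cq R a b = cq R b a := by
  rw [cq_eq h, cq_eq h, ← norm_star, star_sub, star_one, h.mstar]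

/-- `JH-D12` (f): `Qs.mself` -/
theorem cq_self (h : Qs R m) (a : E) : cq R a a = (1 - ‖a‖ ^ 2) ^ 2 := by
  rw [cq_eq h, h.mself]
  have h1 : (1 : ℍ[ℝ]) - ((‖a‖ ^ 2 : ℝ) : ℍ[ℝ]) = ((1 - ‖a‖ ^ 2 : ℝ) : ℍ[ℝ]) := by simp
  rw [h1, Quaternion.norm_coe, Real.norm_eq_abs, sq_abs]

private theorem sq_convex94 (s t u v : ℝ) (hs : 0 ≤ s) (ht : 0 ≤ t) (hst : s + t = 1) :
    (s * u + t * v) ^ 2 ≤ s * u ^ 2 + t * v ^ 2 := by
  have h1 : 0 ≤ s * t * (u - v) ^ 2 := by positivity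
  have h2 : s = 1 - t := by linarith
  subst h2
  nlinarith

private theorem nsq_convex94 {F : Type*} [NormedAddCommGroup F] [NormedSpace ℝ F] (s t : ℝ)
    (hs : 0 ≤ s) (ht : 0 ≤ t) (hst : s + t = 1) (x y : F) :
    ‖s • x + t • y‖ ^ 2 ≤ s * ‖x‖ ^ 2 + t * ‖y‖ ^ 2 := by
  have h2 : ‖s • x + t • y‖ ≤ s * ‖x‖ + t * ‖y‖ := by
    refine (norm_add_le _ _).trans ?_
    rw [norm_smul, norm_smul, Real.norm_of_nonneg hs, Real.norm_of_nonneg ht]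
  have h3 := sq_convex94 s t ‖x‖ ‖y‖ hs ht hst
  have h4 := norm_nonneg (s • x + t • y)
  nlinarith

/-- `JH-D12` (g): a convex quadratic polynomial (compare `cq_convex` in Helper77/JE/Fin.lean, line 588) -/
theorem cq_convex (h : Qs R m) (a : E) {K : ℝ} (hK : 0 ≤ K) :
    ConvexOn ℝ Set.univ (fun z : E => cq R a z - K * (1 - ‖z‖ ^ 2)) ∧
    Continuous (fun z : E => cq R a z - K * (1 - ‖z‖ ^ 2)) := by
  constructor
  · refine ⟨convex_univ, fun x _ y _ s t hs ht hst => ?_⟩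
    have h1 := nsq_convex94 s t hs ht hst x y
    have h2 : ‖1 - m a (s • x + t • y)‖ ^ 2 ≤ s * ‖1 - m a x‖ ^ 2 + t * ‖1 - m a y‖ ^ 2 := by
      have h3 := nsq_convex94 s t hs ht hst (1 - m a x) (1 - m a y)
      have h4 : 1 - m a (s • x + t • y) = s • (1 - m a x) + t • (1 - m a y) := by
        have h5 : (1 : ℍ[ℝ]) = s • (1 : ℍ[ℝ]) + t • (1 : ℍ[ℝ]) := by
          rw [← add_smul, hst, one_smul]
        rw [map_add, map_smul, map_smul, smul_sub, smul_sub]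
        conv_lhs => rw [h5]
        abel
      rw [h4]
      exact h3
    simp only [cq_eq h, smul_eq_mul]
    have h4 := mul_le_mul_of_nonneg_left h1 hK
    have h5 : K = s * K + t * K := by rw [← add_mul, hst, one_mul]
    nlinarith
  · simp only [cq_eq h]
    fun_prop

end Pool.Agent.Helper64.JH
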