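import Pool.Agent.Helper64.JH.D4
import Pool.Agent.Helper64.JH.D12

/-! # JH-D13 -/

set_option autoImplicit false
set_option linter.unusedSectionVars false
set_option linter.unusedVariables false

open Filter Topology Set Quaternion
open scoped ContDiff

namespace Pool.Agent.Helper64.JH

open Pool.Agent.Helper77.JE (Hf Pt Gd rr nu NN tt xs SS)
open Pool.Agent.Helper77.JH (Hq HzQ PtQ FrQ)

variable {E : Type*} [NormedAddCommGroup E] [InnerProductSpace ℝ E] [FiniteDimensional ℝ E]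
variable {R : ℍ[ℝ] →L[ℝ] E →L[ℝ] E} {m : E →L[ℝ] E →L[ℝ] ℍ[ℝ]}

private theorem d13_tt {z : E} (hz : ‖z‖ < 1) : 0 < 1 - ‖z‖ ^ 2 := by
  have h0 := norm_nonneg z
  nlinarith

private theorem d13_mem (h : Qs R m) {ρ : E → ℝ} {z : E} (hz : ‖z‖ < 1)
    (hr : fderiv ℝ ρ z ≠ 0) : (io z : ℍ[ℝ] × E) ∈ UU R ρ := by
  refine ⟨?_, ?_⟩
  · have h1 := tt_io z
    unfold tt at h1
    have h2 := d13_tt hz
    linarith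
  · rw [pr_io h]
    exact hr

/-- the facts on the unit normal at `io z` -/
private theorem d13_nu (h : Qs R m) {ρ : E → ℝ} (hs : ContDiffOn ℝ 3 ρ (Metric.ball 0 1)) {z : E}
    (hz : ‖z‖ < 1) (hr : fderiv ℝ ρ z ≠ 0) :
    BQ E (nu (BQ E) (GG R ρ) (io z)) (nu (BQ E) (GG R ρ) (io z)) = 1 ∧
    BQ E (io z) (nu (BQ E) (GG R ρ) (io z)) = 0 ∧
    (∀ i, BQ E (JQ R i (io z)) (nu (BQ E) (GG R ρ) (io z)) = 0) ∧
    m z (nu (BQ E) (GG R ρ) (io z)).2 = (nu (BQ E) (GG R ρ) (io z)).1 := by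
  have hX := d13_mem h hz hr
  have hpt := fun i => (gdQ h hs i).pt (hfJ h i) hX
  refine ⟨(hpt 0).nn, (hpt 0).xn, fun i => (hpt i).jxn, ?_⟩
  have h1 := (orth_iff h (nu (BQ E) (GG R ρ) (io z)) (io z)).2
    ⟨by rw [BQ_symm]; exact (hpt 0).xn, fun i => by rw [BQ_symm]; exact (hpt i).jxn⟩
  refine ext_inner_left ℝ fun q => ?_
  have h2 := h1 q
  rw [BQ_apply, RL_apply] at h2
  have h3 : inner ℝ (nu (BQ E) (GG R ρ) (io z)).2 (R q z) -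
      inner ℝ (nu (BQ E) (GG R ρ) (io z)).1 (1 * q) = 0 := h2
  rw [one_mul, real_inner_comm, h.inn, real_inner_comm q] at h3
  linarith

private theorem d13_norm (h : Qs R m) {ρ : E → ℝ} (hs : ContDiffOn ℝ 3 ρ (Metric.ball 0 1))
    {z : E} (hz : ‖z‖ < 1) (hr : fderiv ℝ ρ z ≠ 0) :
    √(1 - ‖z‖ ^ 2) * ‖(nu (BQ E) (GG R ρ) (io z)).1‖ < 1 := by
  obtain ⟨h1, -, -, h4⟩ := d13_nu h hs hz hr
  set ν := nu (BQ E) (GG R ρ) (io z)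
  rw [BQ_apply, real_inner_self_eq_norm_sq, real_inner_self_eq_norm_sq] at h1
  have h5 : ‖ν.1‖ ≤ ‖z‖ * ‖ν.2‖ := by
    rw [← h4]
    exact h.m_le z ν.2
  have h6 : ‖ν.1‖ ^ 2 ≤ ‖z‖ ^ 2 * ‖ν.2‖ ^ 2 := by
    rw [← mul_pow]
    exact pow_le_pow_left₀ (norm_nonneg _) h5 2
  have h7 : ‖z‖ ^ 2 < 1 := by have := d13_tt hz; linarith
  have h8 : (√(1 - ‖z‖ ^ 2) * ‖ν.1‖) ^ 2 < 1 ^ 2 := by
    rw [mul_pow, Real.sq_sqrt (d13_tt hz).le]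
    nlinarith
  exact lt_of_pow_lt_pow_left₀ 2 zero_le_one h8

private theorem d13_pr (h : Qs R m) {Y : ℍ[ℝ] × E} (hY : Y.1 ≠ 0) : pr R Y = R (Y.1⁻¹) Y.2 := by
  unfold pr
  have h1 : Y.1⁻¹ = (‖Y.1‖ ^ 2)⁻¹ • star Y.1 := by
    rw [Quaternion.inv_def, Quaternion.normSq_eq_norm_mul_self, sq]
  rw [h1, map_smul, ContinuousLinearMap.smul_apply, sc_apply]

/-- `JH-D13` (a). Put `X = io z`, `s = √(1 - ‖z‖²)`, `ν = nu (BQ E) (GG R ρ) X = (ν₁, ν₂)`; `ν₁ = m z ν₂` (orthogonal to all `X q`), `xs X = s⁻¹ X`,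
`u = s (ν₂ - R ν₁ z)`, `m z u = s (ν₁ - ‖z‖² ν₁) = s³ ν₁`, so `(1 - ‖z‖²)⁻¹ m z u = s ν₁`; `Y = lam xs X - ν`, `Y.1 = lam s⁻¹ - ν₁`; it is not zero: `‖ν₂‖² - ‖ν₁‖² = 1`
and `‖ν₁‖ ≤ ‖z‖ ‖ν₂‖` give `‖ν₁‖² (1 - ‖z‖²) ≤ ‖z‖² < 1`. `pr R Y = R (Y.1⁻¹) Y.2 = z - R (Y.1⁻¹) (ν₂ - R ν₁ z)` and `Y.1⁻¹ = s (lam - s ν₁)⁻¹`. -/
theorem ctr_eq (h : Qs R m) {ρ : E → ℝ} (hs : ContDiffOn ℝ 3 ρ (Metric.ball 0 1)) {z : E}
    (hz : ‖z‖ < 1) (hr : fderiv ℝ ρ z ≠ 0) {lam : ℝ} (hl : 1 ≤ lam) :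
    (lam • xs (BQ E) (io z) - nu (BQ E) (GG R ρ) (io z)).1 ≠ 0 ∧
    ctr R m lam z (√(1 - ‖z‖ ^ 2) • dn R (nu (BQ E) (GG R ρ)) z) =
      pr R (lam • xs (BQ E) (io z) - nu (BQ E) (GG R ρ) (io z)) := by
  have hs0 : 0 < √(1 - ‖z‖ ^ 2) := Real.sqrt_pos.2 (d13_tt hz)
  have hs2 : √(1 - ‖z‖ ^ 2) ^ 2 = 1 - ‖z‖ ^ 2 := Real.sq_sqrt (d13_tt hz).le
  obtain ⟨h1, h2, h3, h4⟩ := d13_nu h hs hz hr
  have hn := d13_norm h hs hz hr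
  set ν := nu (BQ E) (GG R ρ) (io z) with hν
  set s := √(1 - ‖z‖ ^ 2) with hsdef
  have hxs : xs (BQ E) (io z) = s⁻¹ • (io z : ℍ[ℝ] × E) := by
    unfold xs
    rw [tt_io]
  have hY1 : (lam • xs (BQ E) (io z) - ν).1 = (lam * s⁻¹) • (1 : ℍ[ℝ]) - ν.1 := by
    rw [hxs, smul_smul]
    rfl
  have hY2 : (lam • xs (BQ E) (io z) - ν).2 = (lam * s⁻¹) • z - ν.2 := by
    rw [hxs, smul_smul]
    rfl
  have hne : (lam • xs (BQ E) (io z) - ν).1 ≠ 0 := by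
    rw [hY1]
    intro h5
    have h6 : ν.1 = (lam * s⁻¹) • (1 : ℍ[ℝ]) := (sub_eq_zero.1 h5).symm
    rw [h6, norm_smul, norm_one, mul_one, Real.norm_eq_abs, abs_of_pos (by positivity)] at hn
    have h7 : s * (lam * s⁻¹) = lam := by field_simp
    rw [h7] at hn
    linarith
  refine ⟨hne, ?_⟩
  rw [d13_pr h hne]
  have hw : (lam • xs (BQ E) (io z) - ν).2 =
      R (lam • xs (BQ E) (io z) - ν).1 z - (ν.2 - R ν.1 z) := by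
    rw [hY2, hY1, map_sub, ContinuousLinearMap.sub_apply, map_smul, ContinuousLinearMap.smul_apply,
      h.one]
    abel
  rw [hw, map_sub, h.mul, mul_inv_cancel₀ hne, h.one, hY1]
  unfold ctr dn
  have hm : m z (s • (ν.2 - R ν.1 z)) = (s * (1 - ‖z‖ ^ 2)) • ν.1 := by
    rw [map_smul, map_sub, h4, h.mR, h.mself, Quaternion.coe_mul_eq_smul, mul_smul, sub_smul,
      one_smul]
  have hd0 : (1 - ‖z‖ ^ 2) ≠ 0 := (d13_tt hz).ne'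
  have hm2 : (1 - ‖z‖ ^ 2)⁻¹ • m z (s • (ν.2 - R ν.1 z)) = s • ν.1 := by
    rw [hm, smul_smul]
    congr 1
    field_simp
  rw [hm2, map_smul, ← ContinuousLinearMap.smul_apply, ← map_smul]
  have hinv : s • ((lam : ℍ[ℝ]) - s • ν.1)⁻¹ = ((lam * s⁻¹) • (1 : ℍ[ℝ]) - ν.1)⁻¹ := by
    have h8 : ((lam : ℝ) : ℍ[ℝ]) - s • ν.1 = s • ((lam * s⁻¹) • (1 : ℍ[ℝ]) - ν.1) := by
      rw [smul_sub, smul_smul]
      congr 1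
      have h9 : s * (lam * s⁻¹) = lam := by field_simp
      rw [h9]
      ext <;> simp
    rw [h8, smul_inv₀, smul_smul, mul_inv_cancel₀ hs0.ne', one_smul]
  rw [hinv]

/-- `JH-D13` (b): `p` lies in the horoball with centre `b` whose boundary contains `z`. With `Y = xs X - ν`, `b = pr R Y` (a); by `hQ_pr` the
hypothesis is `‖hQ (io p) Y‖² (1 - ‖z‖²) ≤ ‖hQ (io z) Y‖² (1 - ‖p‖²)`; and `‖hQ (io z) Y‖² = 1 - ‖z‖²`, because `BQ (io z) Y = - s`,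
`BQ (JQ R i (io z)) Y = 0` (`hQ_sq`). -/
theorem horo (h : Qs R m) {ρ : E → ℝ} (hs : ContDiffOn ℝ 3 ρ (Metric.ball 0 1)) {z : E}
    (hz : ‖z‖ < 1) (hr : fderiv ℝ ρ z ≠ 0) {p : E} (hp : ‖p‖ < 1)
    (hb : ‖1 - m p (ctr R m 1 z (√(1 - ‖z‖ ^ 2) • dn R (nu (BQ E) (GG R ρ)) z))‖ ^ 2 *
        (1 - ‖z‖ ^ 2) ≤
      ‖1 - m z (ctr R m 1 z (√(1 - ‖z‖ ^ 2) • dn R (nu (BQ E) (GG R ρ)) z))‖ ^ 2 *
        (1 - ‖p‖ ^ 2)) :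
    BQ E ((√(1 - ‖p‖ ^ 2))⁻¹ • io p) (nu (BQ E) (GG R ρ) (io z) - xs (BQ E) (io z)) ^ 2 +
      ∑ i, BQ E (JQ R i ((√(1 - ‖p‖ ^ 2))⁻¹ • io p))
        (nu (BQ E) (GG R ρ) (io z) - xs (BQ E) (io z)) ^ 2 ≤ 1 := by
  have hs0 : 0 < √(1 - ‖z‖ ^ 2) := Real.sqrt_pos.2 (d13_tt hz)
  have hs2 : √(1 - ‖z‖ ^ 2) ^ 2 = 1 - ‖z‖ ^ 2 := Real.sq_sqrt (d13_tt hz).le
  obtain ⟨h1, h2, h3, h4⟩ := d13_nu h hs hz hr
  obtain ⟨hne, hc⟩ := ctr_eq h hs hz hr (le_refl (1 : ℝ))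
  rw [hc] at hb
  rw [one_smul] at hb hne
  set ν := nu (BQ E) (GG R ρ) (io z) with hν
  have hxs : xs (BQ E) (io z) = (√(1 - ‖z‖ ^ 2))⁻¹ • (io z : ℍ[ℝ] × E) := by
    unfold xs
    rw [tt_io]
  have hXX : BQ E (io z) (io z) = -(1 - ‖z‖ ^ 2) := by
    have := tt_io z
    unfold tt at this
    linarith
  have e1 : BQ E (io z) (xs (BQ E) (io z) - ν) = -√(1 - ‖z‖ ^ 2) := by
    rw [map_sub, h2, hxs, map_smul, hXX, smul_eq_mul, sub_zero]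
    have e0 : (√(1 - ‖z‖ ^ 2))⁻¹ * √(1 - ‖z‖ ^ 2) ^ 2 = √(1 - ‖z‖ ^ 2) := by field_simp
    rw [hs2] at e0
    linarith
  have e2 : ∀ i, BQ E (JQ R i (io z)) (xs (BQ E) (io z) - ν) = 0 := by
    intro i
    rw [map_sub, h3 i, hxs, map_smul, smul_eq_mul, sub_zero, (hfJ h i).self0, mul_zero]
  have e3 : ‖hQ m (io z) (xs (BQ E) (io z) - ν)‖ ^ 2 = 1 - ‖z‖ ^ 2 := by
    rw [← hQ_sq h, e1, Finset.sum_congr rfl fun i _ => by rw [e2 i]]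
    rw [neg_sq, hs2]
    simp
  have e4 := hQ_pr h p hne
  have e5 := hQ_pr h z hne
  rw [e3] at e5
  have hY := norm_pos_iff.2 hne
  have hz2 := d13_tt hz
  have hp2 := d13_tt hp
  have e6 : ‖hQ m (io p) (xs (BQ E) (io z) - ν)‖ ^ 2 ≤ 1 - ‖p‖ ^ 2 := by
    have e7 := mul_le_mul_of_nonneg_left hb (sq_nonneg ‖(xs (BQ E) (io z) - ν).1‖)
    have e8 : ‖hQ m (io p) (xs (BQ E) (io z) - ν)‖ ^ 2 * (1 - ‖z‖ ^ 2) ≤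
        (1 - ‖p‖ ^ 2) * (1 - ‖z‖ ^ 2) := by
      rw [e4]
      calc _ = ‖(xs (BQ E) (io z) - ν).1‖ ^ 2 *
            (‖1 - m p (pr R (xs (BQ E) (io z) - ν))‖ ^ 2 * (1 - ‖z‖ ^ 2)) := by ring
        _ ≤ _ := e7
        _ = (‖(xs (BQ E) (io z) - ν).1‖ ^ 2 *
            ‖1 - m z (pr R (xs (BQ E) (io z) - ν))‖ ^ 2) * (1 - ‖p‖ ^ 2) := by ring
        _ = (1 - ‖p‖ ^ 2) * (1 - ‖z‖ ^ 2) := by rw [← e5]; ring
    exact le_of_mul_le_mul_right e8 hz2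
  have hneg : ν - xs (BQ E) (io z) = -(xs (BQ E) (io z) - ν) := by abel
  have e9 := hQ_sq h (io p) (xs (BQ E) (io z) - ν)
  have e10 : (√(1 - ‖p‖ ^ 2))⁻¹ ^ 2 = (1 - ‖p‖ ^ 2)⁻¹ := by
    rw [inv_pow, Real.sq_sqrt hp2.le]
  have e11 : ∀ X : ℍ[ℝ] × E, BQ E ((√(1 - ‖p‖ ^ 2))⁻¹ • X) (ν - xs (BQ E) (io z)) ^ 2 =
      (1 - ‖p‖ ^ 2)⁻¹ * BQ E X (xs (BQ E) (io z) - ν) ^ 2 := by
    intro X
    rw [hneg, map_neg, map_smul, ContinuousLinearMap.smul_apply, smul_eq_mul, neg_sq, mul_pow, e10]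
  have e12 : ∀ i, JQ R i ((√(1 - ‖p‖ ^ 2))⁻¹ • io p) = (√(1 - ‖p‖ ^ 2))⁻¹ • JQ R i (io p) :=
    fun i => map_smul _ _ _
  rw [Finset.sum_congr rfl fun i _ => by rw [e12 i, e11], e11, ← Finset.mul_sum, ← mul_add, e9]
  rw [inv_mul_le_iff₀ hp2, mul_one]
  exact e6

end Pool.Agent.Helper64.JH
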