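import Pool.Agent.Helper64.JH.Df

/-! # JH-D3 -/

set_option autoImplicit false
set_option linter.unusedSectionVars false
set_option linter.unusedVariables false

open Filter Topology Set Quaternion
open scoped ContDiff

namespace Pool.Agent.Helper64.JH

open Pool.Agent.Helper77.JE (Hf Pt Gd rr nu NN tt xs SS)
open Pool.Agent.Helper77.JH (Hq HzQ PtQ FrQ)

variable {E : Type*} [NormedAddCommGroup E] [InnerProductSpace ℝ E] [FiniteDimensional ℝ E]
variable {R : ℍ[ℝ] →L[ℝ] E →L[ℝ] E} {m : E →L[ℝ] E →L[ℝ] ℍ[ℝ]}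

/-- the values of the structure constants -/
private theorem d3_cQ (i j k : Fin 3) : cQ i j k =
    (![![![0, 0, 0], ![0, 0, -1], ![0, 1, 0]], ![![0, 0, 1], ![0, 0, 0], ![-1, 0, 0]],
      ![![0, -1, 0], ![1, 0, 0], ![0, 0, 0]]] : Fin 3 → Fin 3 → Fin 3 → ℝ) i j k := by
  unfold cQ
  rw [Quaternion.inner_def]
  fin_cases i <;> fin_cases j <;> fin_cases k <;> simp [uq]

/-- the product of two units -/
private theorem d3_mul (i j : Fin 3) :
    uq j * uq i = (if i = j then (-1 : ℝ) else 0) • (1 : ℍ[ℝ]) + ∑ k, cQ i j k • uq k := by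
  have h1 : (uq j * uq i).re = if i = j then (-1 : ℝ) else 0 := by
    fin_cases i <;> fin_cases j <;> simp [uq]
  have h2 := q_eq (uq j * uq i)
  rw [h1] at h2
  exact h2

/-- `JH-D3`. `hf`: `hfJ`; `symm`: `BQ_symm`; `nd`: the field `nd` of `hfJ h 0` (or like `hfL` of Helper77/JE/Lift.lean); `mul`: by
`RL_mul` `JQ R i (JQ R j v) = RL R (uq j * uq i) v`, and `uq j * uq i = (if i = j then -1 else 0) + ∑ k, cQ i j k • uq k`
(`q_eq`, or 9 cases `fin_cases i <;> fin_cases j`, `ext <;> simp [uq, cQ, Fin.sum_univ_three, Quaternion.inner_def]`), then `RL_add`,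
`RL_smul`, `RL_real`; `as1`, `as2`, `sq`: finitely many cases (compute the 27 values of `cQ` once: a lemma
`cQ i j k = ![![![0,0,0],![0,0,-1],![0,1,0]],![![0,0,1],![0,0,0],![-1,0,0]],![![0,-1,0],![1,0,0],![0,0,0]]] i j k`). -/
theorem hqQ (h : Qs R m) : Hq (BQ E) (JQ R) cQ := by
  refine ⟨hfJ h, BQ_symm, (hfJ h 0).nd, fun i j v => ?_, fun i j k => ?_, fun i j k => ?_,
    fun i l => ?_⟩
  · unfold JQ
    rw [RL_mul h, d3_mul i j, RL_add, RL_smul]
    have e1 : RL R (∑ k, cQ i j k • uq k) = ∑ k, cQ i j k • RL R (uq k) := by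
      simp only [Fin.sum_univ_three, RL_add, RL_smul]
    have e2 : RL R 1 v = v := by
      have := RL_real h 1 v
      simpa using this
    rw [e1, ContinuousLinearMap.add_apply, ContinuousLinearMap.smul_apply, e2,
      ContinuousLinearMap.sum_apply]
    congr 1
    split_ifs
    · rw [neg_one_smul]
    · rw [zero_smul]
  · rw [d3_cQ, d3_cQ]
    fin_cases i <;> fin_cases j <;> fin_cases k <;> simp
  · rw [d3_cQ, d3_cQ]
    fin_cases i <;> fin_cases j <;> fin_cases k <;> simp
  · rw [Finset.sum_congr rfl fun j _ => Finset.sum_congr rfl fun k _ => by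
      rw [d3_cQ i j k, d3_cQ l j k]]
    fin_cases i <;> fin_cases l <;> simp [Fin.sum_univ_three] <;> norm_num

end Pool.Agent.Helper64.JH
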