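import Pool.Agent.Helper64.JH.Df

/-! # JH-D4 -/

set_option autoImplicit false
set_option linter.unusedSectionVars false
set_option linter.unusedVariables false

open Filter Topology Set Quaternion
open scoped ContDiff

namespace Pool.Agent.Helper64.JH

open Pool.Agent.Helper77.JE (Hf Pt Gd rr nu NN tt xs SS)
open Pool.Agent.Helper77.JH (Hq HzQ PtQ FrQ)

variable {E : Type*} [NormedAddCommGroup E] [InnerProductSpace ℝ E] [FiniteDimensional ℝ E]
variable {R : ℍ[ℝ] →L[ℝ] E →L[ℝ] E} {m : E →L[ℝ] E →L[ℝ] ℍ[ℝ]}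

theorem gd_open0 : IsOpen {X : ℍ[ℝ] × E | BQ E X X < 0} := by
  have h : Continuous fun X : ℍ[ℝ] × E => BQ E X X :=
    ((BQ E).continuous).clm_apply continuous_id
  exact isOpen_lt h continuous_const

theorem gd_pr (h : Qs R m) : ContDiffOn ℝ 3 (pr R) {X : ℍ[ℝ] × E | BQ E X X < 0} := fun X hX =>
  (contDiffAt_infty.1 (pr_smooth R (pr_ball h hX).1) 3).contDiffWithinAt

theorem gd_ff (h : Qs R m) {ρ : E → ℝ} (hs : ContDiffOn ℝ 3 ρ (Metric.ball 0 1)) :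
    ContDiffOn ℝ 3 (ff R ρ) {X : ℍ[ℝ] × E | BQ E X X < 0} :=
  hs.comp (gd_pr h) fun X hX => (pr_ball h hX).2

theorem gd_dff (h : Qs R m) {ρ : E → ℝ} (hs : ContDiffOn ℝ 3 ρ (Metric.ball 0 1)) :
    ContDiffOn ℝ 2 (fderiv ℝ (ff R ρ)) {X : ℍ[ℝ] × E | BQ E X X < 0} :=
  (gd_ff h hs).fderiv_of_isOpen gd_open0 (by norm_num)

theorem gd_dual {F : Type*} [NormedAddCommGroup F] [InnerProductSpace ℝ F] [FiniteDimensional ℝ F]
    (φ : F →L[ℝ] ℝ) : (InnerProductSpace.toDual ℝ F).symm φ =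
    ∑ i, φ (stdOrthonormalBasis ℝ F i) • stdOrthonormalBasis ℝ F i := by
  conv_lhs => rw [← (stdOrthonormalBasis ℝ F).sum_repr' ((InnerProductSpace.toDual ℝ F).symm φ)]
  refine Finset.sum_congr rfl fun i _ => ?_
  rw [real_inner_comm, InnerProductSpace.toDual_symm_apply]

theorem gd_dual_c {F L : Type*} [NormedAddCommGroup F] [InnerProductSpace ℝ F]
    [FiniteDimensional ℝ F] [NormedAddCommGroup L] [NormedSpace ℝ L] {φ : L → F →L[ℝ] ℝ}
    {S : Set L} (hφ : ContDiffOn ℝ 2 φ S) :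
    ContDiffOn ℝ 2 (fun X => (InnerProductSpace.toDual ℝ F).symm (φ X)) S := by
  simp only [gd_dual]
  exact ContDiffOn.sum fun i _ => (hφ.clm_apply contDiffOn_const).smul contDiffOn_const

theorem gd_GG (h : Qs R m) {ρ : E → ℝ} (hs : ContDiffOn ℝ 3 ρ (Metric.ball 0 1)) :
    ContDiffOn ℝ 2 (GG R ρ) {X : ℍ[ℝ] × E | BQ E X X < 0} := by
  have h := gd_dff h hs
  unfold GG
  exact ContDiffOn.prodMk (gd_dual_c (h.clm_comp contDiffOn_const)).neg
    (gd_dual_c (h.clm_comp contDiffOn_const))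

theorem gd_fd (h : Qs R m) {ρ : E → ℝ} (hs : ContDiffOn ℝ 3 ρ (Metric.ball 0 1))
    {X : ℍ[ℝ] × E} (hX : BQ E X X < 0) (w : ℍ[ℝ] × E) :
    fderiv ℝ (ff R ρ) X w = fderiv ℝ ρ (pr R X) (fderiv ℝ (pr R) X w) := by
  have h1 : DifferentiableAt ℝ (pr R) X := pr_diff R (pr_ball h hX).1
  have h2 : DifferentiableAt ℝ ρ (pr R X) :=
    ((hs.contDiffAt (Metric.isOpen_ball.mem_nhds (pr_ball h hX).2)).differentiableAt (by norm_num))
  have h3 := fderiv_comp X h2 h1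
  have h4 : ff R ρ = ρ ∘ pr R := rfl
  rw [h4, h3]
  rfl

theorem gd_onto (h : Qs R m) {X : ℍ[ℝ] × E} (hX : BQ E X X < 0) (u : E) :
    ∃ w : ℍ[ℝ] × E, fderiv ℝ (pr R) X w = u := by
  have h0 := (pr_ball h hX).1
  have hn : ‖X.1‖ ^ 2 ≠ 0 := by
    have := norm_pos_iff.2 h0
    positivity
  refine ⟨(0, R X.1 u), fderiv_line (pr_diff R h0) (Eventually.of_forall fun t => ?_)⟩
  unfold pr
  show (‖X.1 + t • (0 : ℍ[ℝ])‖ ^ 2)⁻¹ • R (sc (X.1 + t • (0 : ℍ[ℝ]))) (X.2 + t • R X.1 u) = _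
  rw [smul_zero, add_zero, map_add, map_smul, sc_apply, h.mul, Quaternion.self_mul_star,
    h.real, Quaternion.normSq_eq_norm_mul_self, smul_add]
  congr 1
  rw [smul_smul, smul_smul]
  congr 1
  field_simp

theorem GG_orth (h : Qs R m) {ρ : E → ℝ} (hs : ContDiffOn ℝ 3 ρ (Metric.ball 0 1))
    {X : ℍ[ℝ] × E} (hX : BQ E X X < 0) (q : ℍ[ℝ]) : BQ E (GG R ρ X) (RL R q X) = 0 := by
  rw [GG_B, gd_fd h hs hX, Dpr_RL h (pr_ball h hX).1, map_zero]

/-- `JH-D4`: copy the proof of `gdL` (Helper77/JE/Lift.lean, lines 358-486, with its private lemmas `gd_open0 .. gd_onto`), with `BQ`,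
`RL`, `pr_ball`, `pr_smooth`, `pr_diff`, `Dpr_RL`, `GG_B`, `BQ_pos` of La.lean instead. `JQ R i = RL R (uq i)`, and `X = RL R 1 X`
(`RL_real`), so `gx` and `gjx` come from `Dpr_RL`. Use `gjx` for all `q`: `BQ E (GG R ρ X) (RL R q X) = 0` (this is the hypothesis
of `BQ_pos`). `onto`: the vector `(0, R X.1 u)` is mapped to `u`. -/
theorem gdQ (h : Qs R m) {ρ : E → ℝ} (hs : ContDiffOn ℝ 3 ρ (Metric.ball 0 1)) (i : Fin 3) :
    Gd (BQ E) (JQ R i) (UU R ρ) (GG R ρ) := by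
  have hgx : ∀ X ∈ UU R ρ, BQ E (GG R ρ X) X = 0 := fun X hX => by
    have h1 := GG_orth h hs hX.1 ((1 : ℝ) : ℍ[ℝ])
    rwa [RL_real h, one_smul] at h1
  have hgjx : ∀ X ∈ UU R ρ, BQ E (GG R ρ X) (JQ R i X) = 0 := fun X hX => GG_orth h hs hX.1 _
  refine ⟨?_, (gd_GG h hs).mono fun X hX => hX.1, fun X hX => hX.1, fun X hX => ?_, hgx, hgjx,
    fun X hX v w => ?_⟩
  · have h1 : ContinuousOn (fun X : ℍ[ℝ] × E => fderiv ℝ ρ (pr R X))
        {X : ℍ[ℝ] × E | BQ E X X < 0} := by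
      refine ContinuousOn.comp (t := Metric.ball (0 : E) 1) ?_ (gd_pr h).continuousOn
        fun X hX => (pr_ball h hX).2
      exact (hs.fderiv_of_isOpen (m := 2) Metric.isOpen_ball (by norm_num)).continuousOn
    have h2 := h1.isOpen_inter_preimage gd_open0 (isOpen_compl_singleton (x := (0 : E →L[ℝ] ℝ)))
    exact h2
  · refine BQ_pos h hX.1 (GG_orth h hs hX.1) fun h0 => hX.2 ?_
    ext u
    obtain ⟨w, hw⟩ := gd_onto h hX.1 u
    rw [← hw, ← gd_fd h hs hX.1, ← GG_B, h0, map_zero]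
    rfl
  · have hO := gd_open0.mem_nhds (show X ∈ {X : ℍ[ℝ] × E | BQ E X X < 0} from hX.1)
    have hG : DifferentiableAt ℝ (GG R ρ) X :=
      ((gd_GG h hs).contDiffAt hO).differentiableAt (by norm_num)
    have hF : DifferentiableAt ℝ (fderiv ℝ (ff R ρ)) X :=
      ((gd_dff h hs).contDiffAt hO).differentiableAt (by norm_num)
    have key : ∀ v w : ℍ[ℝ] × E, BQ E (fderiv ℝ (GG R ρ) X v) w =
        fderiv ℝ (fderiv ℝ (ff R ρ)) X v w := by
      intro v w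
      have e1 : HasFDerivAt (fun Y => BQ E (GG R ρ Y) w)
          (((BQ E).flip w).comp (fderiv ℝ (GG R ρ) X)) X :=
        ((BQ E).flip w).hasFDerivAt.comp X hG.hasFDerivAt
      have e2 : HasFDerivAt (fun Y => fderiv ℝ (ff R ρ) Y w)
          ((ContinuousLinearMap.apply ℝ ℝ w).comp (fderiv ℝ (fderiv ℝ (ff R ρ)) X)) X :=
        (ContinuousLinearMap.apply ℝ ℝ w).hasFDerivAt.comp X hF.hasFDerivAt
      have e3 : (fun Y => BQ E (GG R ρ Y) w) = fun Y => fderiv ℝ (ff R ρ) Y w :=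
        funext fun Y => GG_B R ρ Y w
      rw [e3] at e1
      have e4 := e1.unique e2
      exact congrArg (fun f : (ℍ[ℝ] × E) →L[ℝ] ℝ => f v) e4
    rw [key, key]
    exact ((gd_ff h hs).contDiffAt hO).isSymmSndFDerivAt
      (by rw [minSmoothness_of_isRCLikeNormedField]; norm_num) v w

end Pool.Agent.Helper64.JH
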