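import Pool.Agent.Helper64.JH.Df

/-! # JH-D5 -/

set_option autoImplicit false
set_option linter.unusedSectionVars false
set_option linter.unusedVariables false

open Filter Topology Set Quaternion
open scoped ContDiff

namespace Pool.Agent.Helper64.JH

open Pool.Agent.Helper77.JE (Hf Pt Gd rr nu NN tt xs SS)
open Pool.Agent.Helper77.JH (Hq HzQ PtQ FrQ)

variable {E : Type*} [NormedAddCommGroup E] [InnerProductSpace ℝ E] [FiniteDimensional ℝ E]
variable {R : ℍ[ℝ] →L[ℝ] E →L[ℝ] E} {m : E →L[ℝ] E →L[ℝ] ℍ[ℝ]}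

private theorem d5_basis {L : Type*} [AddCommGroup L] [Module ℝ L] [FiniteDimensional ℝ L]
    (b : LinearMap.BilinForm ℝ L) (hs : ∀ u v, b u v = b v u) (D : Submodule ℝ L)
    (hp : ∀ w ∈ D, w ≠ 0 → 0 < b w w) :
    ∃ (d : ℕ) (f : Fin d → L), (∀ i, f i ∈ D) ∧ (∀ i j, b (f i) (f j) = if i = j then 1 else 0) ∧
      ∀ w ∈ D, w = ∑ i, b w (f i) • f i := by
  have : Invertible (2 : ℝ) := invertibleOfNonzero two_ne_zero
  obtain ⟨v, hv⟩ := LinearMap.BilinForm.exists_orthogonal_basis (B := b.restrict D)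
    ⟨fun x y => hs x y⟩
  have hv0 : ∀ i, 0 < b (v i : L) (v i : L) := fun i =>
    hp _ (v i).2 fun h => v.ne_zero i (Subtype.ext h)
  have hvo : ∀ i j, i ≠ j → b (v i : L) (v j : L) = 0 := fun i j hij => hv hij
  refine ⟨_, fun i => (√(b (v i : L) (v i : L)))⁻¹ • (v i : L), fun i => D.smul_mem _ (v i).2,
    fun i j => ?_, fun w hw => ?_⟩
  · simp only [map_smul, LinearMap.smul_apply, smul_eq_mul]
    by_cases hij : i = j
    · subst hij
      rw [if_pos rfl]
      have h1 : √(b (v i : L) (v i : L)) ≠ 0 := (Real.sqrt_pos.2 (hv0 i)).ne'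
      have h2 := Real.mul_self_sqrt (hv0 i).le
      field_simp
      rw [sq, h2]
    · rw [if_neg hij, hvo i j hij, mul_zero, mul_zero]
  · have h1 : w = ∑ i, v.repr ⟨w, hw⟩ i • (v i : L) := by
      have h2 := congrArg (fun x : D => (x : L)) (v.sum_repr ⟨w, hw⟩)
      simp only [AddSubmonoidClass.coe_finsetSum, Submodule.coe_smul] at h2
      exact h2.symm
    have h3 : ∀ i, b w (v i : L) = v.repr ⟨w, hw⟩ i * b (v i : L) (v i : L) := by
      intro i
      conv_lhs => rw [h1]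
      rw [map_sum, LinearMap.sum_apply, Finset.sum_eq_single i]
      · rw [map_smul, LinearMap.smul_apply, smul_eq_mul]
      · intro k _ hk
        rw [map_smul, LinearMap.smul_apply, hvo k i hk, smul_zero]
      · intro h
        exact absurd (Finset.mem_univ i) h
    conv_lhs => rw [h1]
    refine Finset.sum_congr rfl fun i _ => ?_
    rw [map_smul, h3, smul_smul, smul_eq_mul]
    congr 1
    have h4 : √(b (v i : L) (v i : L)) ≠ 0 := (Real.sqrt_pos.2 (hv0 i)).ne'
    have h5 := Real.mul_self_sqrt (hv0 i).le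
    field_simp
    rw [sq, h5]

private theorem d5_tr {L : Type*} [AddCommGroup L] [Module ℝ L]
    [FiniteDimensional ℝ L] (f : L →ₗ[ℝ] ℝ) (x : L) :
    LinearMap.trace ℝ L (f.smulRight x) = f x := by
  have h : f.smulRight x = dualTensorHom ℝ L L (f ⊗ₜ[ℝ] x) := by
    ext w
    simp [dualTensorHom_apply]
  rw [h, LinearMap.trace_eq_contract_apply, contractLeft_apply]

/-- `B X (X r) = re r · B X X` -/
private theorem d5_re (h : Qs R m) (r : ℍ[ℝ]) (X : ℍ[ℝ] × E) :
    BQ E X (RL R r X) = r.re * BQ E X X := by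
  have e2 : RL R 1 X = X := by
    have := RL_real h 1 X
    simpa using this
  have h1 : BQ E X (RL R r X) = BQ E X (RL R (star r) X) := by
    rw [← BQ_adj h, BQ_symm]
  have h2 : BQ E X (RL R (r + star r) X) = 2 * (r.re * BQ E X X) := by
    rw [Quaternion.self_add_star', RL_real h, map_smul, smul_eq_mul]
    ring
  rw [RL_add, ContinuousLinearMap.add_apply, map_add, ← h1] at h2
  linarith

private theorem d5_self (h : Qs R m) (p q : ℍ[ℝ]) (X : ℍ[ℝ] × E) :
    BQ E (RL R p X) (RL R q X) = inner ℝ q p * BQ E X X := by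
  rw [BQ_adj h, RL_mul h, d5_re h, Quaternion.inner_def]

private theorem d5_cross (h : Qs R m) {X ν : ℍ[ℝ] × E} (h1 : BQ E ν X = 0)
    (h2 : ∀ i, BQ E ν (JQ R i X) = 0) (p q : ℍ[ℝ]) : BQ E (RL R p ν) (RL R q X) = 0 := by
  rw [BQ_adj h, RL_mul h]
  exact (orth_iff h ν X).2 ⟨h1, h2⟩ _

private theorem d5_one (h : Qs R m) (X : ℍ[ℝ] × E) : RL R 1 X = X := by
  have := RL_real h 1 X
  simpa using this

private theorem d5_uq (i j : Fin 3) : inner ℝ (uq i) (uq j) = if i = j then (1 : ℝ) else 0 := by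
  rw [Quaternion.inner_def, Quaternion.re_mul, Quaternion.re_star, Quaternion.imI_star, Quaternion.imJ_star,
    Quaternion.imK_star]
  fin_cases i <;> fin_cases j <;> simp [uq]

private theorem d5_u1 (i : Fin 3) : inner ℝ (1 : ℍ[ℝ]) (uq i) = (0 : ℝ) ∧
    inner ℝ (uq i) (1 : ℍ[ℝ]) = (0 : ℝ) := by
  constructor <;> rw [Quaternion.inner_def, Quaternion.re_mul, Quaternion.re_star, Quaternion.imI_star,
    Quaternion.imJ_star, Quaternion.imK_star] <;> fin_cases i <;> simp [uq]

/-- `JH-D5`: like `exists_fr` (Helper77/JE/Lift.lean, lines 487-624; `L3_basis` there is private, copy it). `ν` is orthogonal to all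
`X q` (`orth_iff`), so `BQ E (JQ R i ν) (RL R q X) = 0` (`BQ_adj`); `D` = the vectors orthogonal to all `X q` and all `ν q`
(`∀ q, BQ E w (RL R q X) = 0` and `∀ q, BQ E w (RL R q ν) = 0`), on which `BQ` is positive (`BQ_pos`); the vectors `X, X q_i, ν, ν q_i` are
orthonormal up to sign by `BQ_RL`, `BQ_adj`, `uq_star`, `uq_norm` and `inner ℝ (uq i) (uq j) = if i = j then 1 else 0`. The dimension: the frame
of `D` and the 8 vectors form a basis of `ℍ × E` (e.g. the trace of the identity in the orthonormal frame, or: the map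
`w ↦ (B w X, .., B w f_i)` to `Fin d ⊕ Fin 8 → ℝ` is a linear equivalence; `finrank ℝ ℍ = 4`: `Quaternion.finrank_eq_four`). -/
theorem exists_fr (h : Qs R m) {X ν : ℍ[ℝ] × E} (hxx : BQ E X X = -1)
    (hnn : BQ E ν ν = 1) (h1 : BQ E ν X = 0) (h2 : ∀ i, BQ E ν (JQ R i X) = 0) :
    ∃ (d : ℕ) (e : Fin d ⊕ Fin 3 → ℍ[ℝ] × E), FrQ (BQ E) (JQ R) X ν e ∧
      d + 4 = Module.finrank ℝ E := by
  have hS := BQ_symm (E := E)
  -- orthogonality relations
  have xx : ∀ i k, BQ E (JQ R i X) (JQ R k X) = if i = k then -1 else 0 := by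
    intro i k
    show BQ E (RL R (uq i) X) (RL R (uq k) X) = _
    rw [d5_self h, d5_uq, hxx]
    by_cases hik : i = k
    · simp [hik]
    · simp [hik, Ne.symm hik]
  have nn : ∀ i k, BQ E (JQ R i ν) (JQ R k ν) = if i = k then 1 else 0 := by
    intro i k
    show BQ E (RL R (uq i) ν) (RL R (uq k) ν) = _
    rw [d5_self h, d5_uq, hnn]
    by_cases hik : i = k
    · simp [hik]
    · simp [hik, Ne.symm hik]
  have x0 : ∀ i, BQ E (JQ R i X) X = 0 := by
    intro i
    have := d5_self h (uq i) 1 X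
    rw [d5_one h, (d5_u1 i).1, zero_mul] at this
    exact this
  have n0 : ∀ i, BQ E (JQ R i ν) ν = 0 := by
    intro i
    have := d5_self h (uq i) 1 ν
    rw [d5_one h, (d5_u1 i).1, zero_mul] at this
    exact this
  have nx : ∀ i, BQ E (JQ R i ν) X = 0 := by
    intro i
    have := d5_cross h h1 h2 (uq i) 1
    rwa [d5_one h] at this
  have nxx : ∀ i k, BQ E (JQ R i ν) (JQ R k X) = 0 := fun i k => d5_cross h h1 h2 (uq i) (uq k)
  -- the complement
  let D : Submodule ℝ (ℍ[ℝ] × E) :=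
    { carrier := {w | (∀ q, BQ E w (RL R q X) = 0) ∧ ∀ q, BQ E w (RL R q ν) = 0}
      add_mem' := by
        rintro u v ⟨a1, a2⟩ ⟨b1, b2⟩
        refine ⟨fun q => ?_, fun q => ?_⟩ <;> rw [map_add, ContinuousLinearMap.add_apply]
        · rw [a1, b1, add_zero]
        · rw [a2, b2, add_zero]
      zero_mem' := by
        refine ⟨fun q => ?_, fun q => ?_⟩ <;> rw [map_zero, ContinuousLinearMap.zero_apply]
      smul_mem' := by
        rintro c v ⟨b1, b2⟩
        refine ⟨fun q => ?_, fun q => ?_⟩ <;> rw [map_smul, ContinuousLinearMap.smul_apply]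
        · rw [b1, smul_zero]
        · rw [b2, smul_zero] }
  let b : LinearMap.BilinForm ℝ (ℍ[ℝ] × E) := LinearMap.mk₂ ℝ (fun u v => BQ E u v)
    (fun u u' v => by rw [map_add, ContinuousLinearMap.add_apply])
    (fun c u v => by rw [map_smul, ContinuousLinearMap.smul_apply])
    (fun u v v' => by rw [map_add]) (fun c u v => by rw [map_smul])
  have hb : ∀ u v, b u v = BQ E u v := fun _ _ => rfl
  obtain ⟨d, f, hfD, hfo, hfc⟩ := d5_basis b (fun u v => hS u v) D
    (fun w hw hw0 => BQ_pos h (by rw [hxx]; norm_num) hw.1 hw0)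
  have fX : ∀ i, BQ E (f i) X = 0 ∧ ∀ k, BQ E (f i) (JQ R k X) = 0 := fun i =>
    (orth_iff h (f i) X).1 (hfD i).1
  have fN : ∀ i, BQ E (f i) ν = 0 ∧ ∀ k, BQ E (f i) (JQ R k ν) = 0 := fun i =>
    (orth_iff h (f i) ν).1 (hfD i).2
  have hfo' : ∀ i k, BQ E (f i) (f k) = if i = k then 1 else 0 := fun i k => by
    have := hfo i k
    rwa [hb] at this
  have hcomp : ∀ w, w = -(BQ E w X • X) - ∑ i, BQ E w (JQ R i X) • JQ R i X + BQ E w ν • ν +
      (∑ i, BQ E w (f i) • f i + ∑ i, BQ E w (JQ R i ν) • JQ R i ν) := by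
    intro w
    set w' : ℍ[ℝ] × E := w + BQ E w X • X + ∑ i, BQ E w (JQ R i X) • JQ R i X - BQ E w ν • ν -
      ∑ i, BQ E w (JQ R i ν) • JQ R i ν with hw'
    have e : ∀ y, BQ E w' y = BQ E w y + BQ E w X * BQ E X y +
        ∑ i, BQ E w (JQ R i X) * BQ E (JQ R i X) y -
        BQ E w ν * BQ E ν y - ∑ i, BQ E w (JQ R i ν) * BQ E (JQ R i ν) y := by
      intro y
      rw [hw']
      simp only [map_add, map_sub, map_smul, map_sum, ContinuousLinearMap.add_apply,
        ContinuousLinearMap.sub_apply, ContinuousLinearMap.smul_apply,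
        ContinuousLinearMap.sum_apply, smul_eq_mul]
    have hwD : w' ∈ D := by
      refine ⟨(orth_iff h w' X).2 ⟨?_, fun k => ?_⟩, (orth_iff h w' ν).2 ⟨?_, fun k => ?_⟩⟩
      · rw [e, hxx, h1]
        simp [x0, nx]
      · rw [e, hS X (JQ R k X), x0 k, h2 k]
        simp [xx, nxx]
      · rw [e, hS X ν, h1, hnn]
        simp only [n0, hS (JQ R _ X) ν, h2]
        simp
      · rw [e, hS X (JQ R k ν), nx k, hS ν (JQ R k ν), n0 k]
        simp only [hS (JQ R _ X) (JQ R k ν), nxx, nn]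
        simp
    have h3 := hfc w' hwD
    have h4 : ∀ i, b w' (f i) = BQ E w (f i) := by
      intro i
      rw [hb, e, hS X (f i), (fX i).1, hS ν (f i), (fN i).1]
      simp only [hS (JQ R _ X) (f i), (fX i).2, hS (JQ R _ ν) (f i), (fN i).2]
      simp
    have h5 : ∑ i, b w' (f i) • f i = ∑ i, BQ E w (f i) • f i :=
      Finset.sum_congr rfl fun i _ => by rw [h4]
    rw [h5] at h3
    rw [← h3, hw']
    abel
  refine ⟨d, Sum.elim f fun i => JQ R i ν, ⟨fun i => rfl, ?_, ?_, ?_⟩, ?_⟩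
  · rintro (i | i)
    · exact ⟨(fX i).1, (fX i).2, (fN i).1⟩
    · exact ⟨nx i, nxx i, n0 i⟩
  · rintro (i | i) (k | k)
    · change BQ E (f i) (f k) = _
      rw [hfo' i k]
      simp
    · change BQ E (f i) (JQ R k ν) = _
      rw [(fN i).2 k]
      simp
    · change BQ E (JQ R i ν) (f k) = _
      rw [hS, (fN k).2 i]
      simp
    · change BQ E (JQ R i ν) (JQ R k ν) = _
      rw [nn i k]
      simp
  · intro w
    rw [Fintype.sum_sum_type]
    exact hcomp w
  · -- the dimension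
    let bl : (ℍ[ℝ] × E) → (ℍ[ℝ] × E) →ₗ[ℝ] ℝ := fun y => b.flip y
    have hbl : ∀ y w, bl y w = BQ E w y := fun _ _ => rfl
    have hid : (LinearMap.id : (ℍ[ℝ] × E) →ₗ[ℝ] (ℍ[ℝ] × E)) =
        -((bl X).smulRight X) - ∑ i, (bl (JQ R i X)).smulRight (JQ R i X) + (bl ν).smulRight ν +
        (∑ i, (bl (f i)).smulRight (f i) + ∑ i, (bl (JQ R i ν)).smulRight (JQ R i ν)) := by
      refine LinearMap.ext fun w => ?_
      simp only [LinearMap.id_apply, LinearMap.add_apply, LinearMap.sub_apply, LinearMap.neg_apply,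
        LinearMap.sum_apply, LinearMap.smulRight_apply, hbl]
      exact hcomp w
    have ht := congrArg (LinearMap.trace ℝ (ℍ[ℝ] × E)) hid
    simp only [LinearMap.trace_id, map_add, map_sub, map_neg, map_sum, d5_tr, hbl, hxx, hnn, xx,
      nn, hfo', Module.finrank_prod, Quaternion.finrank_eq_four] at ht
    simp at ht
    have h9 : ((4 : ℝ) + (Module.finrank ℝ E : ℝ)) = (d : ℝ) + 8 := by linarith
    have h10 : (Module.finrank ℝ E : ℝ) = ((d + 4 : ℕ) : ℝ) := by push_cast; linarith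
    exact (Nat.cast_injective h10).symm

end Pool.Agent.Helper64.JH
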