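import Pool.Agent.Helper64.JH.Df

/-! # JH-D6 -/

set_option autoImplicit false
set_option linter.unusedSectionVars false
set_option linter.unusedVariables false

open Filter Topology Set Quaternion
open scoped ContDiff

namespace Pool.Agent.Helper64.JH

open Pool.Agent.Helper77.JE (Hf Pt Gd rr nu NN tt xs SS)
open Pool.Agent.Helper77.JH (Hq HzQ PtQ FrQ)
open Pool.Agent.Helper41.ALX (divg Vertical ballMetric meanCurv radial)

variable {E : Type*} [NormedAddCommGroup E] [InnerProductSpace ℝ E] [FiniteDimensional ℝ E]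
variable {R : ℍ[ℝ] →L[ℝ] E →L[ℝ] E} {m : E →L[ℝ] E →L[ℝ] ℍ[ℝ]}

/-- the trace of a rank one map -/
private theorem tr_sm_d6 {L : Type*} [NormedAddCommGroup L] [NormedSpace ℝ L]
    [FiniteDimensional ℝ L] (f : L →ₗ[ℝ] ℝ) (x : L) :
    LinearMap.trace ℝ L (f.smulRight x) = f x := by
  have h : f.smulRight x = dualTensorHom ℝ L L (f ⊗ₜ[ℝ] x) := by
    ext w
    simp [dualTensorHom_apply]
  rw [h, LinearMap.trace_eq_contract_apply, contractLeft_apply]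

private theorem tr_prod_d6 {M N : Type*} [NormedAddCommGroup M] [NormedSpace ℝ M]
    [FiniteDimensional ℝ M] [NormedAddCommGroup N] [NormedSpace ℝ N] [FiniteDimensional ℝ N]
    (P : (M × N) →ₗ[ℝ] (M × N)) :
    LinearMap.trace ℝ (M × N) P =
      LinearMap.trace ℝ M (LinearMap.fst ℝ M N ∘ₗ P ∘ₗ LinearMap.inl ℝ M N) +
      LinearMap.trace ℝ N (LinearMap.snd ℝ M N ∘ₗ P ∘ₗ LinearMap.inr ℝ M N) := by
  have h1 : P = (P ∘ₗ LinearMap.inl ℝ M N) ∘ₗ LinearMap.fst ℝ M N +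
      (P ∘ₗ LinearMap.inr ℝ M N) ∘ₗ LinearMap.snd ℝ M N := by
    refine LinearMap.ext fun v => ?_
    show P v = P (v.1, 0) + P (0, v.2)
    rw [← map_add]
    congr 1
    simp
  conv_lhs => rw [h1]
  rw [map_add, LinearMap.trace_comp_comm' (P ∘ₗ LinearMap.inl ℝ M N) (LinearMap.fst ℝ M N),
    LinearMap.trace_comp_comm' (P ∘ₗ LinearMap.inr ℝ M N) (LinearMap.snd ℝ M N)]

private theorem inner_R_d6 (h : Qs R m) (c : ℍ[ℝ]) (v : E) :
    inner ℝ v (R c v) = c.re * ‖v‖ ^ 2 := by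
  have e1 : inner ℝ v (R c v) = inner ℝ v (R (star c) v) := by
    rw [← h.adj, real_inner_comm]
  have e2 : c + star c = ((2 * c.re : ℝ) : ℍ[ℝ]) := by
    rw [Quaternion.self_add_star]
    push_cast
    rfl
  have e3 : inner ℝ v (R c v) + inner ℝ v (R (star c) v) = 2 * c.re * ‖v‖ ^ 2 := by
    rw [← inner_add_right, ← ContinuousLinearMap.add_apply, ← map_add, e2, h.real,
      inner_smul_right, real_inner_self_eq_norm_sq]
  linarith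

private theorem tr_R_d6 (h : Qs R m) (c : ℍ[ℝ]) :
    LinearMap.trace ℝ E (R c : E →ₗ[ℝ] E) = c.re * Module.finrank ℝ E := by
  rw [LinearMap.trace_eq_sum_inner _ (stdOrthonormalBasis ℝ E)]
  have e : ∀ i, inner ℝ (stdOrthonormalBasis ℝ E i)
      ((R c : E →ₗ[ℝ] E) (stdOrthonormalBasis ℝ E i)) = c.re := by
    intro i
    show inner ℝ (stdOrthonormalBasis ℝ E i) (R c (stdOrthonormalBasis ℝ E i)) = c.re
    rw [inner_R_d6 h, (stdOrthonormalBasis ℝ E).norm_eq_one]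
    ring
  rw [Finset.sum_congr rfl fun i _ => e i, Finset.sum_const, Finset.card_univ, Fintype.card_fin,
    nsmul_eq_mul, mul_comm]

private theorem tr_mul_d6 (c : ℍ[ℝ]) :
    LinearMap.trace ℝ ℍ[ℝ] (LinearMap.mulLeft ℝ c) = 4 * c.re := by
  rw [LinearMap.trace_eq_sum_inner _ (stdOrthonormalBasis ℝ ℍ[ℝ])]
  have e : ∀ i, inner ℝ (stdOrthonormalBasis ℝ ℍ[ℝ] i)
      ((LinearMap.mulLeft ℝ c) (stdOrthonormalBasis ℝ ℍ[ℝ] i)) = c.re := by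
    intro i
    set b := stdOrthonormalBasis ℝ ℍ[ℝ] i with hb
    have hn : ‖b‖ = 1 := (stdOrthonormalBasis ℝ ℍ[ℝ]).norm_eq_one i
    show inner ℝ b (c * b) = c.re
    rw [real_inner_comm, Quaternion.inner_def, mul_assoc, Quaternion.self_mul_star,
      Quaternion.normSq_eq_norm_mul_self, hn]
    simp
  rw [Finset.sum_congr rfl fun i _ => e i, Finset.sum_const, Finset.card_univ, Fintype.card_fin,
    Quaternion.finrank_eq_four, nsmul_eq_mul]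
  norm_num

/-- `JH-D6`: the divergence of the projected field; `2 k = dim E + 4`. Like `descent` (Helper77/JE/Lift.lean, lines 628-826). Here
`fderiv (dn R V) z w = (P (0, w)).2 - R (P (0, w)).1 z - R (V (io z)).1 w`, `P = fderiv ℝ V (io z)`. Traces: `tr (w ↦ R c w) = c.re * dim E`
(for the orthonormal basis: `inner ℝ b (R c b) = c.re * ‖b‖²`, from `Qs.adj`, `Qs.real`, `Quaternion.self_add_star`), and
`tr (w ↦ R (P (0, w)).1 z) = tr_ℍ (q ↦ (P (0, R q z)).1)` (`LinearMap.trace_comp_comm'`); in an orthonormal basis `1, i, j, k` of `ℍ`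
`(P (q, 0)).1 = (P (RL R q (io z))).1 - (P (0, R q z)).1`, and `P (RL R q (io z)) = RL R q (V (io z))` for all `q` (from `h1`, `h2`, `q_eq`), so
`tr P = tr_ℍ (q ↦ (V (io z)).1 * q) - tr_ℍ (q ↦ (P (0, R q z)).1) + tr_E (w ↦ (P (0, w)).2)`, `tr_ℍ (q ↦ c * q) = 4 c.re`. By `h3`
`⟪z, (V (io z)).2⟫ = (V (io z)).1.re`, so `⟪z, dn R V z⟫ = (V (io z)).1.re (1 - ‖z‖²)`, and the derivative of `(1 - ‖y‖²)^(-k)` gives
`2 k (V (io z)).1.re (1 - ‖z‖²)^(-k)`; the sum of the terms with `(V (io z)).1.re` is `2 k - dim E = 4`. -/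
theorem descent (h : Qs R m) {k : ℕ} (hk : Module.finrank ℝ E + 4 = 2 * k)
    {V : ℍ[ℝ] × E → ℍ[ℝ] × E} {z : E} (hz : ‖z‖ < 1) (hV : DifferentiableAt ℝ V (io z))
    (h1 : fderiv ℝ V (io z) (io z) = V (io z))
    (h2 : ∀ i, fderiv ℝ V (io z) (JQ R i (io z)) = JQ R i (V (io z)))
    (h3 : BQ E (V (io z)) (io z) = 0) :
    divg (fun y => ((1 - ‖y‖ ^ 2) ^ k)⁻¹ • dn R V y) z =
      ((1 - ‖z‖ ^ 2) ^ k)⁻¹ *
        LinearMap.trace ℝ _ (fderiv ℝ V (io z) : (ℍ[ℝ] × E) →ₗ[ℝ] (ℍ[ℝ] × E)) := by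
  obtain ⟨n, rfl⟩ : ∃ n, k = n + 1 := ⟨k - 1, by omega⟩
  have hzz : 0 < 1 - ‖z‖ ^ 2 := by
    have := norm_nonneg z
    nlinarith
  set P : (ℍ[ℝ] × E) →L[ℝ] (ℍ[ℝ] × E) := fderiv ℝ V (io z) with hP
  set c : ℍ[ℝ] := (V (io z)).1 with hcdef
  -- the inclusion
  set ι : E →L[ℝ] (ℍ[ℝ] × E) := ContinuousLinearMap.inr ℝ ℍ[ℝ] E with hι
  have hι1 : ∀ v : E, ι v = ((0 : ℍ[ℝ]), v) := fun v => rfl
  have hio : HasFDerivAt (io : E → ℍ[ℝ] × E) ι z := by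
    have e1 : (io : E → ℍ[ℝ] × E) = fun y => ((1, 0) : ℍ[ℝ] × E) + ι y := by
      funext y
      show ((1, y) : ℍ[ℝ] × E) = (1 + 0, 0 + y)
      simp
    rw [e1]
    exact ι.hasFDerivAt.const_add _
  have hVio : HasFDerivAt (fun y : E => V (io y)) (P.comp ι) z := hV.hasFDerivAt.comp z hio
  have hA : HasFDerivAt (fun y : E => (V (io y)).1)
      ((ContinuousLinearMap.fst ℝ ℍ[ℝ] E).comp (P.comp ι)) z :=
    (ContinuousLinearMap.fst ℝ ℍ[ℝ] E).hasFDerivAt.comp z hVio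
  have hC : HasFDerivAt (fun y : E => (V (io y)).2)
      ((ContinuousLinearMap.snd ℝ ℍ[ℝ] E).comp (P.comp ι)) z :=
    (ContinuousLinearMap.snd ℝ ℍ[ℝ] E).hasFDerivAt.comp z hVio
  have hA1 : HasFDerivAt (fun y : E => R (V (io y)).1)
      (R.comp ((ContinuousLinearMap.fst ℝ ℍ[ℝ] E).comp (P.comp ι))) z :=
    R.hasFDerivAt.comp z hA
  have hA' : HasFDerivAt (fun y : E => R (V (io y)).1 y)
      (R c + (R.flip z).comp ((ContinuousLinearMap.fst ℝ ℍ[ℝ] E).comp (P.comp ι))) z := by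
    refine (hA1.clm_apply (hasFDerivAt_id z)).congr_fderiv ?_
    refine ContinuousLinearMap.ext fun w => ?_
    simp [hcdef]
  have hdn : HasFDerivAt (dn R V) ((ContinuousLinearMap.snd ℝ ℍ[ℝ] E).comp (P.comp ι) -
      (R c + (R.flip z).comp ((ContinuousLinearMap.fst ℝ ℍ[ℝ] E).comp (P.comp ι)))) z :=
    hC.sub hA'
  -- the factor
  have hc : HasFDerivAt (fun y : E => ((1 - ‖y‖ ^ 2) ^ (n + 1))⁻¹)
      ((2 * ((n : ℝ) + 1) * ((1 - ‖z‖ ^ 2) ^ (n + 2))⁻¹) • innerSL ℝ z) z := by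
    have e1 : HasFDerivAt (fun y : E => 1 - ‖y‖ ^ 2) (-((2 : ℝ) • innerSL ℝ z)) z := by
      have := (hasStrictFDerivAt_norm_sq z).hasFDerivAt.const_sub (1 : ℝ)
      rwa [two_nsmul, ← two_smul ℝ] at this
    have e2 : HasDerivAt (fun t : ℝ => (t ^ (n + 1))⁻¹)
        (-(((n + 1 : ℕ) : ℝ) * (1 - ‖z‖ ^ 2) ^ n) / ((1 - ‖z‖ ^ 2) ^ (n + 1)) ^ 2)
        (1 - ‖z‖ ^ 2) := by
      have hne : (1 - ‖z‖ ^ 2) ^ (n + 1) ≠ 0 := pow_ne_zero _ hzz.ne'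
      have := HasDerivAt.fun_inv (c := fun t : ℝ => t ^ (n + 1))
        (hasDerivAt_pow (n + 1) (1 - ‖z‖ ^ 2)) hne
      simpa using this
    have e3 := e2.comp_hasFDerivAt z e1
    refine e3.congr_fderiv ?_
    refine ContinuousLinearMap.ext fun v => ?_
    show (-(((n + 1 : ℕ) : ℝ) * (1 - ‖z‖ ^ 2) ^ n) / ((1 - ‖z‖ ^ 2) ^ (n + 1)) ^ 2) *
      -(2 * inner ℝ z v) = (2 * ((n : ℝ) + 1) * ((1 - ‖z‖ ^ 2) ^ (n + 2))⁻¹) * inner ℝ z v
    have hne := hzz.ne'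
    generalize 1 - ‖z‖ ^ 2 = q at hne ⊢
    push_cast
    field_simp
    ring
  have hW := hc.smul hdn
  set A : E →ₗ[ℝ] ℍ[ℝ] :=
    (((ContinuousLinearMap.fst ℝ ℍ[ℝ] E).comp (P.comp ι) : E →L[ℝ] ℍ[ℝ]) : E →ₗ[ℝ] ℍ[ℝ])
    with hAdef
  set Bz : ℍ[ℝ] →ₗ[ℝ] E := ((R.flip z : ℍ[ℝ] →L[ℝ] E) : ℍ[ℝ] →ₗ[ℝ] E) with hBz
  have key : ((((1 - ‖z‖ ^ 2) ^ (n + 1))⁻¹ • ((ContinuousLinearMap.snd ℝ ℍ[ℝ] E).comp (P.comp ι) -
      (R c + (R.flip z).comp ((ContinuousLinearMap.fst ℝ ℍ[ℝ] E).comp (P.comp ι)))) +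
      ((2 * ((n : ℝ) + 1) * ((1 - ‖z‖ ^ 2) ^ (n + 2))⁻¹) • innerSL ℝ z).smulRight (dn R V z) :
      E →L[ℝ] E) : E →ₗ[ℝ] E) =
      ((1 - ‖z‖ ^ 2) ^ (n + 1))⁻¹ •
        ((((ContinuousLinearMap.snd ℝ ℍ[ℝ] E).comp (P.comp ι) : E →L[ℝ] E) : E →ₗ[ℝ] E) -
      ((R c : E →ₗ[ℝ] E) + Bz ∘ₗ A)) +
      ((((2 * ((n : ℝ) + 1) * ((1 - ‖z‖ ^ 2) ^ (n + 2))⁻¹) • innerSL ℝ z : E →L[ℝ] ℝ)) :
        E →ₗ[ℝ] ℝ).smulRight (dn R V z) := rfl
  have hdiv : divg (fun y => ((1 - ‖y‖ ^ 2) ^ (n + 1))⁻¹ • dn R V y) z =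
      ((1 - ‖z‖ ^ 2) ^ (n + 1))⁻¹ *
        (LinearMap.trace ℝ E
          (((ContinuousLinearMap.snd ℝ ℍ[ℝ] E).comp (P.comp ι) : E →L[ℝ] E) : E →ₗ[ℝ] E) -
        (c.re * Module.finrank ℝ E + LinearMap.trace ℝ ℍ[ℝ] (A ∘ₗ Bz))) +
      (2 * ((n : ℝ) + 1) * ((1 - ‖z‖ ^ 2) ^ (n + 2))⁻¹) * inner ℝ z (dn R V z) := by
    unfold divg
    have e : fderiv ℝ (fun y => ((1 - ‖y‖ ^ 2) ^ (n + 1))⁻¹ • dn R V y) z = _ := hW.fderiv
    rw [e, key, map_add, map_smul, map_sub, map_add, tr_sm_d6, tr_R_d6 h,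
      LinearMap.trace_comp_comm' Bz A]
    rfl
  have hRL : ∀ q : ℍ[ℝ], P (RL R q (io z)) = RL R q (V (io z)) := by
    intro q
    have hone : ∀ X : ℍ[ℝ] × E, RL R 1 X = X := by
      intro X
      have := RL_real h 1 X
      simpa using this
    have hex : ∀ X : ℍ[ℝ] × E, RL R q X = q.re • X + ∑ i, inner ℝ (uq i) q • JQ R i X := by
      intro X
      conv_lhs => rw [q_eq q]
      rw [RL_add, RL_smul]
      have e1 : RL R (∑ i, inner ℝ (uq i) q • uq i) = ∑ i, inner ℝ (uq i) q • RL R (uq i) := by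
        simp only [Fin.sum_univ_three, RL_add, RL_smul]
      rw [e1]
      simp only [ContinuousLinearMap.add_apply, ContinuousLinearMap.smul_apply, hone,
        ContinuousLinearMap.sum_apply]
      rfl
    rw [hex, hex, map_add, map_smul, map_sum, h1]
    congr 1
    refine Finset.sum_congr rfl fun i _ => ?_
    rw [map_smul, h2 i]
  have hfst : LinearMap.fst ℝ ℍ[ℝ] E ∘ₗ (P : (ℍ[ℝ] × E) →ₗ[ℝ] (ℍ[ℝ] × E)) ∘ₗ
      LinearMap.inl ℝ ℍ[ℝ] E = LinearMap.mulLeft ℝ c - A ∘ₗ Bz := by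
    refine LinearMap.ext fun q => ?_
    show (P (q, 0)).1 = c * q - (P (0, R q z)).1
    have e1 : ((q, 0) : ℍ[ℝ] × E) = RL R q (io z) - (0, R q z) := by
      rw [RL_apply]
      unfold io
      refine Prod.ext ?_ ?_
      · simp
      · simp
    rw [e1, map_sub, hRL, RL_apply]
    rfl
  have htr : LinearMap.trace ℝ _ (P : (ℍ[ℝ] × E) →ₗ[ℝ] (ℍ[ℝ] × E)) =
      (4 * c.re - LinearMap.trace ℝ ℍ[ℝ] (A ∘ₗ Bz)) +
        LinearMap.trace ℝ E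
          (((ContinuousLinearMap.snd ℝ ℍ[ℝ] E).comp (P.comp ι) : E →L[ℝ] E) : E →ₗ[ℝ] E) := by
    rw [tr_prod_d6, hfst, map_sub, tr_mul_d6]
    rfl
  have hV3 : inner ℝ z (V (io z)).2 = c.re := by
    rw [BQ_apply] at h3
    have h3' : inner ℝ (V (io z)).2 z - inner ℝ (V (io z)).1 (1 : ℍ[ℝ]) = 0 := h3
    rw [real_inner_comm (1 : ℍ[ℝ]), inner_one_q] at h3'
    rw [real_inner_comm]
    linarith
  have hzd : inner ℝ z (dn R V z) = c.re * (1 - ‖z‖ ^ 2) := by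
    unfold dn
    rw [inner_sub_right, hV3, inner_R_d6 h]
    ring
  have hdim : (Module.finrank ℝ E : ℝ) + 4 = 2 * ((n : ℝ) + 1) := by exact_mod_cast hk
  rw [hdiv, htr, hzd]
  have hne := hzz.ne'
  have hfr : (Module.finrank ℝ E : ℝ) = 2 * ((n : ℝ) + 1) - 4 := by linarith
  rw [hfr]
  generalize 1 - ‖z‖ ^ 2 = q at hne ⊢
  field_simp
  ring

end Pool.Agent.Helper64.JH
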