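import Pool.Agent.Helper64.JH.Df

/-! # JH-D7: homogeneity -/

set_option autoImplicit false
set_option linter.unusedSectionVars false
set_option linter.unusedVariables false

open Filter Topology Set Quaternion
open scoped ContDiff

namespace Pool.Agent.Helper64.JH

open Pool.Agent.Helper77.JE (Hf Pt Gd rr nu NN tt xs SS)
open Pool.Agent.Helper77.JH (Hq HzQ PtQ FrQ)

variable {L : Type*} [NormedAddCommGroup L] [NormedSpace ℝ L]
variable {B : L →L[ℝ] L →L[ℝ] ℝ} {G : L → L}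

theorem rr_hom (hG : ∀ c : ℝ, 0 < c → ∀ X, G (c • X) = c⁻¹ • G X) {c : ℝ} (hc : 0 < c) (X : L) :
    rr B G (c • X) = c⁻¹ * rr B G X := by
  unfold rr
  rw [hG c hc X]
  have h : B (c⁻¹ • G X) (c⁻¹ • G X) = c⁻¹ ^ 2 * B (G X) (G X) := by
    simp only [map_smul, ContinuousLinearMap.smul_apply, smul_eq_mul]
    ring
  rw [h, Real.sqrt_mul (sq_nonneg _), Real.sqrt_sq (inv_pos.2 hc).le]

theorem nu_hom (hG : ∀ c : ℝ, 0 < c → ∀ X, G (c • X) = c⁻¹ • G X) {c : ℝ} (hc : 0 < c) (X : L) :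
    nu B G (c • X) = nu B G X := by
  unfold nu
  rw [rr_hom hG hc X, hG c hc X, smul_smul]
  congr 1
  rw [mul_inv, inv_inv]
  field_simp

theorem NN_hom (hG : ∀ c : ℝ, 0 < c → ∀ X, G (c • X) = c⁻¹ • G X) {c : ℝ} (hc : 0 < c) (X : L) :
    NN B G (c • X) = c⁻¹ • NN B G X := by
  unfold NN
  have h1 : (fun Y => nu B G (c • Y)) = nu B G := funext fun Y => nu_hom hG hc Y
  have h2 := fderiv_comp_smul (𝕜 := ℝ) (f := nu B G) (x := X) c
  rw [h1] at h2
  rw [h2, smul_smul, inv_mul_cancel₀ hc.ne', one_smul]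

/-- `JH-D7`: homogeneity (any space); the proof of `NN_smul` of Helper77/JE/Lift.lean -/
theorem NN_smul (hG : ∀ c : ℝ, 0 < c → ∀ X, G (c • X) = c⁻¹ • G X) {c : ℝ} (hc : 0 < c) (X : L) :
    nu B G (c • X) = nu B G X ∧ NN B G (c • X) = c⁻¹ • NN B G X ∧
    fderiv ℝ (NN B G) (c • X) = (c⁻¹ ^ 2) • fderiv ℝ (NN B G) X := by
  refine ⟨nu_hom hG hc X, NN_hom hG hc X, ?_⟩
  have h1 : (fun Y => NN B G (c • Y)) = c⁻¹ • NN B G :=
    funext fun Y => NN_hom hG hc Y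
  have h2 := fderiv_comp_smul (𝕜 := ℝ) (f := NN B G) (x := X) c
  have h4 := congrFun (fderiv_const_smul_field (𝕜 := ℝ) (f := NN B G) c⁻¹) X
  rw [h1, h4] at h2
  have h3 : fderiv ℝ (NN B G) (c • X) = c⁻¹ • (c • fderiv ℝ (NN B G) (c • X)) := by
    rw [smul_smul, inv_mul_cancel₀ hc.ne', one_smul]
  rw [h3, ← h2, Pi.smul_apply, smul_smul, sq]

end Pool.Agent.Helper64.JH
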