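import Pool.Agent.Helper64.JH.Df

/-! # JH-D8 -/

set_option autoImplicit false
set_option linter.unusedSectionVars false
set_option linter.unusedVariables false

open Filter Topology Set Quaternion
open scoped ContDiff

namespace Pool.Agent.Helper64.JH

open Pool.Agent.Helper77.JE (Hf Pt Gd rr nu NN tt xs SS)
open Pool.Agent.Helper77.JH (Hq HzQ PtQ FrQ)
open Pool.Agent.Helper41.ALX (divg Vertical ballMetric meanCurv radial)

variable {E : Type*} [NormedAddCommGroup E] [InnerProductSpace ℝ E] [FiniteDimensional ℝ E]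
variable {R : ℍ[ℝ] →L[ℝ] E →L[ℝ] E} {m : E →L[ℝ] E →L[ℝ] ℍ[ℝ]}

/-- `JH-D8`: the unit normal: `g⁻¹ v = (1 - ‖z‖²) (v - z m(z, v))`. Like `normal_eq` (Helper77/JE/Lift.lean, lines 904-952): by `GG_io`
`GG R ρ (io z) = (m z g, g)`, `BQ` of it with itself is `‖g‖² - ‖m z g‖² = ⟪g, g - R (m z g) z⟫` (`Qs.inn`). -/
theorem normal_eq (h : Qs R m) {ρ : E → ℝ} {z : E} (hz : ‖z‖ < 1)
    (hd : DifferentiableAt ℝ ρ z) (hr : fderiv ℝ ρ z ≠ 0) :
    (√(inner ℝ (gradient ρ z) ((1 - ‖z‖ ^ 2) • (gradient ρ z - R (m z (gradient ρ z)) z))))⁻¹ •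
      ((1 - ‖z‖ ^ 2) • (gradient ρ z - R (m z (gradient ρ z)) z)) =
    √(1 - ‖z‖ ^ 2) • dn R (nu (BQ E) (GG R ρ)) z := by
  have hs : 0 < 1 - ‖z‖ ^ 2 := by
    have := norm_nonneg z
    nlinarith
  set g := gradient ρ z with hg
  have hG := GG_io h hd
  have h1 : BQ E (GG R ρ (io z)) (GG R ρ (io z)) = inner ℝ g (g - R (m z g) z) := by
    rw [hG, BQ_apply]
    show inner ℝ g g - inner ℝ (m z g) (m z g) = _
    rw [inner_sub_right, real_inner_comm (R (m z g) z) g, h.inn]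
  have h2 : dn R (nu (BQ E) (GG R ρ)) z =
      (√(inner ℝ g (g - R (m z g) z)))⁻¹ • (g - R (m z g) z) := by
    unfold dn nu rr
    rw [h1, hG]
    simp only [Prod.smul_fst, Prod.smul_snd, ← hg, smul_sub, map_smul,
      smul_apply]
  rw [h2]
  set w := g - R (m z g) z with hw
  rw [inner_smul_right, Real.sqrt_mul hs.le, smul_smul, smul_smul, mul_inv]
  congr 1
  have h3 : √(1 - ‖z‖ ^ 2) ≠ 0 := (Real.sqrt_pos.2 hs).ne'
  have h4 : √(1 - ‖z‖ ^ 2) * √(1 - ‖z‖ ^ 2) = 1 - ‖z‖ ^ 2 := Real.mul_self_sqrt hs.le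
  have h5 : (√(1 - ‖z‖ ^ 2))⁻¹ * (1 - ‖z‖ ^ 2) = √(1 - ‖z‖ ^ 2) := by
    rw [← h4]
    field_simp
    simp
  calc _ = (√(1 - ‖z‖ ^ 2))⁻¹ * (1 - ‖z‖ ^ 2) * (√(inner ℝ g w))⁻¹ := by ring
    _ = _ := by rw [h5]

end Pool.Agent.Helper64.JH
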