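import Pool.Agent.Helper64.JH.D4
import Pool.Agent.Helper64.JH.D6
import Pool.Agent.Helper64.JH.D8

/-! # JH-D9 -/

set_option autoImplicit false
set_option linter.unusedSectionVars false
set_option linter.unusedVariables false

open Filter Topology Set Quaternion
open scoped ContDiff TensorProduct

namespace Pool.Agent.Helper64.JH

open Pool.Agent.Helper77.JE (Hf Pt Gd rr nu NN tt xs SS)
open Pool.Agent.Helper77.JH (Hq HzQ PtQ FrQ)
open Pool.Agent.Helper41.ALX (divg Vertical ballMetric meanCurv radial)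

variable {E : Type*} [NormedAddCommGroup E] [InnerProductSpace ℝ E] [FiniteDimensional ℝ E]
variable {R : ℍ[ℝ] →L[ℝ] E →L[ℝ] E} {m : E →L[ℝ] E →L[ℝ] ℍ[ℝ]}

/-- the derivative of `√tt • nu` -/
theorem mmQ_deriv {B : (ℍ[ℝ] × E) →L[ℝ] (ℍ[ℝ] × E) →L[ℝ] ℝ} {J : (ℍ[ℝ] × E) →L[ℝ] (ℍ[ℝ] × E)}
    {U : Set (ℍ[ℝ] × E)} {G : ℍ[ℝ] × E → ℍ[ℝ] × E} (hH : Hf B J) (hG : Gd B J U G)
    {X : ℍ[ℝ] × E} (hX : X ∈ U) :
    HasFDerivAt (fun Y => √(tt B Y) • nu B G Y)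
      (√(tt B X) • NN B G X - ((√(tt B X))⁻¹ • B X).smulRight (nu B G X)) X := by
  have hpos : 0 < tt B X := by
    have := hG.neg X hX
    unfold tt
    linarith
  have hn : HasFDerivAt (nu B G) (NN B G X) X :=
    ((hG.nu_c2.contDiffAt (hG.isOpen.mem_nhds hX)).differentiableAt (by norm_num)).hasFDerivAt
  have h1 : HasFDerivAt (fun Y => B Y Y) (B.precompR (ℍ[ℝ] × E) X (ContinuousLinearMap.id ℝ _) +
      B.precompL (ℍ[ℝ] × E) (ContinuousLinearMap.id ℝ _) X) X :=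
    B.hasFDerivAt_of_bilinear (hasFDerivAt_id X) (hasFDerivAt_id X)
  have h2 : HasFDerivAt (tt B) (-(B.precompR (ℍ[ℝ] × E) X (ContinuousLinearMap.id ℝ _) +
      B.precompL (ℍ[ℝ] × E) (ContinuousLinearMap.id ℝ _) X)) X := h1.neg
  have h3 := h2.sqrt hpos.ne'
  have h4 := h3.smul hn
  refine h4.congr_fderiv ?_
  refine ContinuousLinearMap.ext fun v => ?_
  have e1 : (B.precompR (ℍ[ℝ] × E) X (ContinuousLinearMap.id ℝ _) +
      B.precompL (ℍ[ℝ] × E) (ContinuousLinearMap.id ℝ _) X) v = 2 * B X v := by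
    show B X v + B v X = _
    rw [hH.symm v X]
    ring
  simp only [ContinuousLinearMap.add_apply, ContinuousLinearMap.sub_apply,
    ContinuousLinearMap.smul_apply, ContinuousLinearMap.smulRight_apply,
    ContinuousLinearMap.neg_apply, e1]
  have hs : √(tt B X) ≠ 0 := (Real.sqrt_pos.2 hpos).ne'
  rw [sub_eq_add_neg, ← neg_smul]
  congr 2
  simp only [smul_eq_mul]
  field_simp

theorem mmQ_tr {L : Type*} [NormedAddCommGroup L] [NormedSpace ℝ L] [FiniteDimensional ℝ L]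
    (f : L →ₗ[ℝ] ℝ) (x : L) : LinearMap.trace ℝ L (f.smulRight x) = f x := by
  have h : f.smulRight x = dualTensorHom ℝ L L (f ⊗ₜ[ℝ] x) := by
    ext w
    simp [dualTensorHom_apply]
  rw [h, LinearMap.trace_eq_contract_apply, contractLeft_apply]

/-- `JH-D9`: the mean curvature. Like `meanCurv_mc` (Helper77/JE/Lift.lean, lines 953-1107, with `mm_tr`, `mm_deriv`): `descent` for the field
`√tt • nu`; all earlier D files are black boxes (`gdQ`, `descent`, `normal_eq`); for `h2` use `(gdQ h hs i).pt (hfJ h i)`. -/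
theorem meanCurv_mc (h : Qs R m) {k : ℕ} (hk : Module.finrank ℝ E + 4 = 2 * k)
    {g : E → E →L[ℝ] E}
    (hdet : ∀ z : E, ‖z‖ < 1 → LinearMap.det (g z : E →ₗ[ℝ] E) = ((1 - ‖z‖ ^ 2)⁻¹) ^ (2 * k))
    (hinv : ∀ z v : E, ‖z‖ < 1 → (g z).inverse v = (1 - ‖z‖ ^ 2) • (v - R (m z v) z))
    {ρ : E → ℝ} (hs : ContDiffOn ℝ 3 ρ (Metric.ball 0 1)) {z : E} (hz : ‖z‖ < 1)
    (hr : fderiv ℝ ρ z ≠ 0) : meanCurv g ρ z = mc R ρ z := by
  have hzb : z ∈ Metric.ball (0 : E) 1 := by simpa using hz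
  have hsz : ∀ y : E, ‖y‖ < 1 → 0 < 1 - ‖y‖ ^ 2 := by
    intro y hy
    have := norm_nonneg y
    nlinarith
  have hXU : ∀ y : E, ‖y‖ < 1 → fderiv ℝ ρ y ≠ 0 → io y ∈ UU R ρ := by
    intro y hy hyr
    refine ⟨?_, ?_⟩
    · have := tt_io y
      unfold tt at this
      have := hsz y hy
      linarith
    · rw [pr_io h]
      exact hyr
  have hX := hXU z hz hr
  have hH := hfJ (E := E) h
  -- the field on the cone
  set V : ℍ[ℝ] × E → ℍ[ℝ] × E := fun Y => √(tt (BQ E) Y) • nu (BQ E) (GG R ρ) Y with hV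
  have hD := mmQ_deriv (hH 0) (gdQ h hs 0) hX
  have hpt : ∀ i, Pt (BQ E) (JQ R i) (io z) (nu (BQ E) (GG R ρ) (io z)) (NN (BQ E) (GG R ρ) (io z)) :=
    fun i => (gdQ h hs i).pt (hH i) hX
  have htt : tt (BQ E) (io z) = 1 - ‖z‖ ^ 2 := tt_io z
  have hpos := hsz z hz
  have hsq : √(1 - ‖z‖ ^ 2) * √(1 - ‖z‖ ^ 2) = 1 - ‖z‖ ^ 2 := Real.mul_self_sqrt hpos.le
  have hs0 : √(1 - ‖z‖ ^ 2) ≠ 0 := (Real.sqrt_pos.2 hpos).ne'
  have hfd : fderiv ℝ V (io z) = √(tt (BQ E) (io z)) • NN (BQ E) (GG R ρ) (io z) -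
      ((√(tt (BQ E) (io z)))⁻¹ • BQ E (io z)).smulRight (nu (BQ E) (GG R ρ) (io z)) := hD.fderiv
  have hXX : BQ E (io z) (io z) = -(1 - ‖z‖ ^ 2) := by
    rw [← htt]
    unfold tt
    ring
  have hXJX : ∀ i, BQ E (io z) (JQ R i (io z)) = 0 := by
    intro i
    have h1 := (hH i).inv (io z) (JQ R i (io z))
    rw [(hH i).jj, map_neg, (hH i).symm (JQ R i (io z)) (io z)] at h1
    linarith
  have h1 : fderiv ℝ V (io z) (io z) = V (io z) := by
    rw [hfd]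
    show √(tt (BQ E) (io z)) • NN (BQ E) (GG R ρ) (io z) (io z) -
      ((√(tt (BQ E) (io z)))⁻¹ • BQ E (io z) (io z)) • nu (BQ E) (GG R ρ) (io z) = _
    rw [(hpt 0).Nx, smul_zero, zero_sub, ← neg_smul, hXX, htt]
    show _ = √(tt (BQ E) (io z)) • nu (BQ E) (GG R ρ) (io z)
    rw [htt]
    congr 1
    rw [smul_eq_mul]
    field_simp
    nlinarith
  have h2 : ∀ i, fderiv ℝ V (io z) (JQ R i (io z)) = JQ R i (V (io z)) := by
    intro i
    rw [hfd]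
    show √(tt (BQ E) (io z)) • NN (BQ E) (GG R ρ) (io z) (JQ R i (io z)) -
      ((√(tt (BQ E) (io z)))⁻¹ • BQ E (io z) (JQ R i (io z))) • nu (BQ E) (GG R ρ) (io z) = _
    rw [(hpt i).Njx, hXJX i, smul_zero, zero_smul, sub_zero]
    show _ = JQ R i (√(tt (BQ E) (io z)) • nu (BQ E) (GG R ρ) (io z))
    rw [map_smul]
  have h3 : BQ E (V (io z)) (io z) = 0 := by
    show BQ E (√(tt (BQ E) (io z)) • nu (BQ E) (GG R ρ) (io z)) (io z) = 0
    rw [map_smul, ContinuousLinearMap.smul_apply, (hH 0).symm, (hpt 0).xn, smul_zero]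
  have hdes := descent h hk hz hD.differentiableAt h1 h2 h3
  -- the trace
  have htr : LinearMap.trace ℝ _ (fderiv ℝ V (io z) : (ℍ[ℝ] × E) →ₗ[ℝ] (ℍ[ℝ] × E)) =
      mc R ρ z := by
    have e1 : (fderiv ℝ V (io z) : (ℍ[ℝ] × E) →ₗ[ℝ] (ℍ[ℝ] × E)) =
        √(tt (BQ E) (io z)) • (NN (BQ E) (GG R ρ) (io z) : (ℍ[ℝ] × E) →ₗ[ℝ] (ℍ[ℝ] × E)) -
        (((√(tt (BQ E) (io z)))⁻¹ • BQ E (io z) : (ℍ[ℝ] × E) →L[ℝ] ℝ) :
          (ℍ[ℝ] × E) →ₗ[ℝ] ℝ).smulRight (nu (BQ E) (GG R ρ) (io z)) := by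
      rw [hfd]
      rfl
    rw [e1, map_sub, map_smul, mmQ_tr]
    show _ - (√(tt (BQ E) (io z)))⁻¹ * BQ E (io z) (nu (BQ E) (GG R ρ) (io z)) = _
    rw [(hpt 0).xn, mul_zero, sub_zero, htt]
    rfl
  -- the field of the mean curvature
  have hdt : ∀ y : E, ‖y‖ < 1 → √(LinearMap.det (g y : E →ₗ[ℝ] E)) =
      ((1 - ‖y‖ ^ 2) ^ k)⁻¹ := by
    intro y hy
    have h0 := hsz y hy
    rw [hdet y hy, show 2 * k = k * 2 by ring, pow_mul, Real.sqrt_sq (by positivity),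
      inv_pow]
  have hcr : ∀ᶠ y in 𝓝 z, fderiv ℝ ρ y ≠ 0 := by
    have hc : ContinuousAt (fderiv ℝ ρ) z :=
      ((hs.contDiffAt (Metric.isOpen_ball.mem_nhds hzb)).fderiv_right
        (m := 2) (by norm_num)).continuousAt
    exact hc.eventually_ne hr
  have hfield : (fun y => (√(LinearMap.det (g y : E →ₗ[ℝ] E)) /
      √(inner ℝ (gradient ρ y) ((g y).inverse (gradient ρ y)))) •
        (g y).inverse (gradient ρ y)) =ᶠ[𝓝 z]
      (fun y => ((1 - ‖y‖ ^ 2) ^ k)⁻¹ • dn R V y) := by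
    filter_upwards [Metric.isOpen_ball.mem_nhds hzb, hcr] with y hyb hyr
    have hy : ‖y‖ < 1 := by simpa using hyb
    have hdy : DifferentiableAt ℝ ρ y :=
      (hs.contDiffAt (Metric.isOpen_ball.mem_nhds hyb)).differentiableAt (by norm_num)
    have hne := normal_eq h hy hdy hyr
    rw [hdt y hy, hinv y _ hy, div_eq_mul_inv, mul_smul, hne]
    congr 1
    unfold dn
    show _ = (√(tt (BQ E) (io y)) • nu (BQ E) (GG R ρ) (io y)).2 -
      R (√(tt (BQ E) (io y)) • nu (BQ E) (GG R ρ) (io y)).1 y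
    rw [tt_io]
    simp only [Prod.smul_snd, Prod.smul_fst, smul_sub, map_smul, ContinuousLinearMap.smul_apply]
  unfold meanCurv
  have hdv : divg (fun y => (√(LinearMap.det (g y : E →ₗ[ℝ] E)) /
      √(inner ℝ (gradient ρ y) ((g y).inverse (gradient ρ y)))) •
        (g y).inverse (gradient ρ y)) z =
      divg (fun y => ((1 - ‖y‖ ^ 2) ^ k)⁻¹ • dn R V y) z := by
    unfold divg
    rw [hfield.fderiv_eq]
  rw [hdv, hdes, htr, hdt z hz, inv_inv, ← mul_assoc,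
    mul_inv_cancel₀ (pow_ne_zero _ hpos.ne'), one_mul]

end Pool.Agent.Helper64.JH
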