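import Pool.Agent.Helper64.JH.La
import Pool.Agent.Helper77.JH.Cone

/-! # JH: from the ball of `ℍⁿ` to the cone: definitions -/

set_option autoImplicit false
set_option linter.unusedSectionVars false
set_option linter.unusedVariables false

open Filter Topology Set Quaternion
open scoped ContDiff

namespace Pool.Agent.Helper64.JH

open Pool.Agent.Helper77.JE (Hf Pt Gd rr nu NN tt xs SS)
open Pool.Agent.Helper77.JH (Hq HzQ PtQ FrQ)
open Pool.Agent.Helper41.ALX (divg Vertical ballMetric meanCurv radial)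

variable {E : Type*} [NormedAddCommGroup E] [InnerProductSpace ℝ E] [FiniteDimensional ℝ E]
variable {R : ℍ[ℝ] →L[ℝ] E →L[ℝ] E} {m : E →L[ℝ] E →L[ℝ] ℍ[ℝ]}

/-- the structure constants of the right multiplications -/
noncomputable def cQ (i j k : Fin 3) : ℝ := inner ℝ (uq k) (uq j * uq i)

/-- the field on the ball of a field on the cone -/
noncomputable def dn (R : ℍ[ℝ] →L[ℝ] E →L[ℝ] E) (V : ℍ[ℝ] × E → ℍ[ℝ] × E) (z : E) : E :=
  (V (io z)).2 - R (V (io z)).1 z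

/-- the function whose restriction to the hypersurface is the mean curvature -/
noncomputable def mc (R : ℍ[ℝ] →L[ℝ] E →L[ℝ] E) (ρ : E → ℝ) (z : E) : ℝ :=
  √(1 - ‖z‖ ^ 2) *
    LinearMap.trace ℝ _ (NN (BQ E) (GG R ρ) (io z) : (ℍ[ℝ] × E) →ₗ[ℝ] (ℍ[ℝ] × E))

theorem tt_io (z : E) : tt (BQ E) (io z) = 1 - ‖z‖ ^ 2 := by
  unfold tt
  rw [BQ_apply]
  show -(inner ℝ z z - inner ℝ (1 : ℍ[ℝ]) 1) = _
  rw [real_inner_self_eq_norm_sq, real_inner_self_eq_norm_sq, norm_one]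
  ring

/-- the quaternionic hermitian form of the cone -/
noncomputable def hQ (m : E →L[ℝ] E →L[ℝ] ℍ[ℝ]) (X Y : ℍ[ℝ] × E) : ℍ[ℝ] :=
  m X.2 Y.2 - star X.1 * Y.1

/-- `cosh²` times the norms -/
noncomputable def cq (R : ℍ[ℝ] →L[ℝ] E →L[ℝ] E) (a b : E) : ℝ :=
  BQ E (io a) (io b) ^ 2 + ∑ i, BQ E (JQ R i (io a)) (io b) ^ 2

/-- the centre of the tangent sphere (`lam > 1`), the end point of the ray `exp_z (- t u)` for `lam = 1`;
`u` is the unit normal -/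
noncomputable def ctr (R : ℍ[ℝ] →L[ℝ] E →L[ℝ] E) (m : E →L[ℝ] E →L[ℝ] ℍ[ℝ]) (lam : ℝ) (z u : E) : E :=
  z - R (((lam : ℍ[ℝ]) - (1 - ‖z‖ ^ 2)⁻¹ • m z u)⁻¹) u

end Pool.Agent.Helper64.JH
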