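import Pool.Agent.Helper64.JH.Qs

/-! # JH: from the ball of `ℍⁿ` to the cone, part a

Port of `Helper77/JE/Lift.lean` (complex case) to the quaternionic case.
-/

set_option autoImplicit false
set_option linter.unusedSectionVars false
set_option linter.unusedVariables false

open Filter Topology Set Quaternion
open scoped ContDiff

namespace Pool.Agent.Helper64.JH

open Pool.Agent.Helper77.JE
open Pool.Agent.Helper41.ALX (divg Vertical ballMetric meanCurv radial)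

variable {E : Type*} [NormedAddCommGroup E] [InnerProductSpace ℝ E] [FiniteDimensional ℝ E]
variable {R : ℍ[ℝ] →L[ℝ] E →L[ℝ] E} {m : E →L[ℝ] E →L[ℝ] ℍ[ℝ]}

/-- the projection of the cone to the ball: `v c⁻¹` -/
noncomputable def pr (R : ℍ[ℝ] →L[ℝ] E →L[ℝ] E) (X : ℍ[ℝ] × E) : E :=
  (‖X.1‖ ^ 2)⁻¹ • R (sc X.1) X.2

/-- the point `(1, z)` of the cone -/
def io (z : E) : ℍ[ℝ] × E := (1, z)

theorem pr_io (h : Qs R m) (z : E) : pr R (io z) = z := by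
  simp [pr, io, sc_apply, h.one]

/-- `JH-D1` (a) -/
theorem pr_RL (h : Qs R m) {q : ℍ[ℝ]} (hq : q ≠ 0) (X : ℍ[ℝ] × E) : pr R (RL R q X) = pr R X := by
  have hq2 : ‖q‖ ^ 2 ≠ 0 := by
    have := norm_pos_iff.2 hq
    positivity
  unfold pr
  rw [RL_apply]
  show (‖X.1 * q‖ ^ 2)⁻¹ • R (sc (X.1 * q)) (R q X.2) = _
  rw [sc_apply, star_mul, h.mul, ← mul_assoc, Quaternion.self_mul_star,
    Quaternion.coe_mul_eq_smul, map_smul, ContinuousLinearMap.smul_apply, norm_mul, mul_pow, mul_inv,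
    smul_smul, Quaternion.normSq_eq_norm_mul_self, ← sq, mul_assoc, inv_mul_cancel₀ hq2, mul_one,
    sc_apply]

theorem pr_smul (h : Qs R m) {c : ℝ} (hc : c ≠ 0) (X : ℍ[ℝ] × E) : pr R (c • X) = pr R X := by
  have h1 : ((c : ℝ) : ℍ[ℝ]) ≠ 0 := by
    intro h2
    exact hc (by simpa using congrArg (fun q : ℍ[ℝ] => q.re) h2)
  rw [← RL_real h, pr_RL h h1]

/-- `‖pr X‖² = ‖v‖² / ‖c‖²` -/
theorem pr_norm (h : Qs R m) {X : ℍ[ℝ] × E} (hX : X.1 ≠ 0) :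
    ‖pr R X‖ ^ 2 = (‖X.1‖ ^ 2)⁻¹ * ‖X.2‖ ^ 2 := by
  have h1 := norm_pos_iff.2 hX
  unfold pr
  rw [norm_smul, mul_pow, h.norm, sc_apply, norm_star, mul_pow, Real.norm_eq_abs, sq_abs]
  field_simp

theorem pr_ball (h : Qs R m) {X : ℍ[ℝ] × E} (hX : BQ E X X < 0) :
    X.1 ≠ 0 ∧ pr R X ∈ Metric.ball (0 : E) 1 := by
  rw [BQ_apply, real_inner_self_eq_norm_sq, real_inner_self_eq_norm_sq] at hX
  have h0 : X.1 ≠ 0 := by
    intro h1
    rw [h1, norm_zero] at hX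
    nlinarith [sq_nonneg ‖X.2‖]
  refine ⟨h0, ?_⟩
  rw [mem_ball_zero_iff]
  have h1 := norm_pos_iff.2 h0
  have h2 := pr_norm h h0
  have h3 : ‖pr R X‖ ^ 2 < 1 := by
    rw [h2, inv_mul_lt_iff₀ (by positivity), mul_one]
    linarith
  have h4 : ‖pr R X‖ ^ 2 < 1 ^ 2 := by rw [one_pow]; exact h3
  exact lt_of_pow_lt_pow_left₀ 2 zero_le_one h4

/-- `pr` is smooth where `c ≠ 0` -/
theorem pr_smooth (R : ℍ[ℝ] →L[ℝ] E →L[ℝ] E) {X : ℍ[ℝ] × E} (hX : X.1 ≠ 0) :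
    ContDiffAt ℝ ∞ (pr R) X := by
  have h1 : ContDiffAt ℝ ∞ (fun X : ℍ[ℝ] × E => X.1) X := contDiffAt_fst
  have h2 : ContDiffAt ℝ ∞ (fun X : ℍ[ℝ] × E => X.2) X := contDiffAt_snd
  have h3 : ContDiffAt ℝ ∞ (fun X : ℍ[ℝ] × E => R (sc X.1)) X :=
    (R.contDiff.comp sc.contDiff).contDiffAt.comp X h1
  have h4 : ContDiffAt ℝ ∞ (fun X : ℍ[ℝ] × E => ‖X.1‖ ^ 2) X := h1.norm_sq ℝ
  have h5 := norm_pos_iff.2 hX
  exact (h4.inv (by positivity)).smul (h3.clm_apply h2)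

theorem pr_diff (R : ℍ[ℝ] →L[ℝ] E →L[ℝ] E) {X : ℍ[ℝ] × E} (hX : X.1 ≠ 0) :
    DifferentiableAt ℝ (pr R) X := (pr_smooth R hX).differentiableAt (by simp)

theorem fderiv_line {L F : Type*} [NormedAddCommGroup L] [NormedSpace ℝ L]
    [NormedAddCommGroup F] [NormedSpace ℝ F] {f : L → F} {x v : L} (hf : DifferentiableAt ℝ f x)
    {c : F} (h : ∀ᶠ t : ℝ in 𝓝 0, f (x + t • v) = f x + t • c) : fderiv ℝ f x v = c := by
  have h1 : HasDerivAt (fun t : ℝ => x + t • v) v 0 := by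
    simpa using ((hasDerivAt_id (0 : ℝ)).smul_const v).const_add x
  have h2 : HasFDerivAt f (fderiv ℝ f x) ((fun t : ℝ => x + t • v) 0) := by
    simpa using hf.hasFDerivAt
  have h3 : HasDerivAt (fun t : ℝ => f (x + t • v)) (fderiv ℝ f x v) 0 :=
    h2.comp_hasDerivAt (0 : ℝ) h1
  have h4 : HasDerivAt (fun t : ℝ => f x + t • c) c 0 := by
    simpa using ((hasDerivAt_id (0 : ℝ)).smul_const c).const_add (f x)
  have h5 : HasDerivAt (fun t : ℝ => f (x + t • v)) c 0 := h4.congr_of_eventuallyEq h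
  exact h3.unique h5

/-- `pr (X + s • X q) = pr X` near `s = 0`: `X + s X q = X (1 + s q)` -/
theorem Dpr_RL (h : Qs R m) {X : ℍ[ℝ] × E} (hX : X.1 ≠ 0) (q : ℍ[ℝ]) :
    fderiv ℝ (pr R) X (RL R q X) = 0 := by
  refine fderiv_line (pr_diff R hX) ?_
  have h1 : ContinuousAt (fun t : ℝ => (1 : ℍ[ℝ]) + t • q) 0 := by fun_prop
  have h2 : ∀ᶠ t : ℝ in 𝓝 0, (1 : ℍ[ℝ]) + t • q ≠ 0 := by
    refine h1.eventually_ne ?_
    simp
  filter_upwards [h2] with t ht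
  have h3 : X + t • RL R q X = RL R (1 + t • q) X := by
    rw [RL_add, RL_smul]
    have e2 : RL R 1 X = X := by
      have := RL_real h 1 X
      simpa using this
    rw [ContinuousLinearMap.add_apply, e2]
    rfl
  rw [h3, pr_RL h ht, smul_zero, add_zero]

/-- `JH-D1` (b): the derivative at `(1, z)` -/
theorem Dpr_io (h : Qs R m) (z : E) (w : ℍ[ℝ] × E) :
    fderiv ℝ (pr R) (io z) w = w.2 - R w.1 z := by
  have hX : (io z : ℍ[ℝ] × E).1 ≠ 0 := by simp [io]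
  have h1 : w = RL R w.1 (io z) + ((0 : ℍ[ℝ]), w.2 - R w.1 z) := by
    rw [RL_apply]
    refine Prod.ext ?_ ?_
    · simp [io]
    · simp [io]
  have h2 : fderiv ℝ (pr R) (io z) ((0 : ℍ[ℝ]), w.2 - R w.1 z) = w.2 - R w.1 z := by
    refine fderiv_line (pr_diff R hX) (Eventually.of_forall fun t => ?_)
    have h3 : io z + t • ((0 : ℍ[ℝ]), w.2 - R w.1 z) = io (z + t • (w.2 - R w.1 z)) := by
      unfold io
      refine Prod.ext ?_ rfl
      simp
    rw [h3, pr_io h, pr_io h]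
  conv_lhs => rw [h1]
  rw [map_add, Dpr_RL h hX, h2, zero_add]

/-- the function on the cone -/
noncomputable def ff (R : ℍ[ℝ] →L[ℝ] E →L[ℝ] E) (ρ : E → ℝ) (X : ℍ[ℝ] × E) : ℝ := ρ (pr R X)

/-- its `B`-gradient -/
noncomputable def GG (R : ℍ[ℝ] →L[ℝ] E →L[ℝ] E) (ρ : E → ℝ) (X : ℍ[ℝ] × E) : ℍ[ℝ] × E :=
  (-(InnerProductSpace.toDual ℝ ℍ[ℝ]).symm ((fderiv ℝ (ff R ρ) X).comp
      (ContinuousLinearMap.inl ℝ ℍ[ℝ] E)),
    (InnerProductSpace.toDual ℝ E).symm ((fderiv ℝ (ff R ρ) X).comp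
      (ContinuousLinearMap.inr ℝ ℍ[ℝ] E)))

/-- the domain -/
def UU (R : ℍ[ℝ] →L[ℝ] E →L[ℝ] E) (ρ : E → ℝ) : Set (ℍ[ℝ] × E) :=
  {X | BQ E X X < 0 ∧ fderiv ℝ ρ (pr R X) ≠ 0}

/-- `JH-D2` (a) -/
theorem GG_B (R : ℍ[ℝ] →L[ℝ] E →L[ℝ] E) (ρ : E → ℝ) (X w : ℍ[ℝ] × E) :
    BQ E (GG R ρ X) w = fderiv ℝ (ff R ρ) X w := by
  rw [BQ_apply]
  unfold GG
  dsimp only
  rw [inner_neg_left, InnerProductSpace.toDual_symm_apply, InnerProductSpace.toDual_symm_apply,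
    sub_neg_eq_add]
  have h : w = (w.1, 0) + (0, w.2) := by simp
  conv_rhs => rw [h, map_add]
  rw [add_comm]
  rfl

/-- `JH-D2` (b) -/
theorem GG_smul (h : Qs R m) (ρ : E → ℝ) {c : ℝ} (hc : 0 < c) (X : ℍ[ℝ] × E) :
    GG R ρ (c • X) = c⁻¹ • GG R ρ X := by
  have h1 : (fun Y => ff R ρ (c • Y)) = ff R ρ := by
    funext Y
    unfold ff
    rw [pr_smul h hc.ne']
  have h2 : fderiv ℝ (ff R ρ) X = c • fderiv ℝ (ff R ρ) (c • X) := by
    conv_lhs => rw [← h1]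
    exact fderiv_comp_smul c
  have h3 : fderiv ℝ (ff R ρ) (c • X) = c⁻¹ • fderiv ℝ (ff R ρ) X := by
    rw [h2, smul_smul, inv_mul_cancel₀ hc.ne', one_smul]
  unfold GG
  rw [h3]
  simp only [ContinuousLinearMap.smul_comp, map_smul, Prod.smul_mk, smul_neg]

/-- `JH-D2` (c): at `(1, z)` -/
theorem GG_io (h : Qs R m) {ρ : E → ℝ} {z : E} (hz : DifferentiableAt ℝ ρ z) :
    GG R ρ (io z) = (m z (gradient ρ z), gradient ρ z) := by
  have hX : (io z : ℍ[ℝ] × E).1 ≠ 0 := by simp [io]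
  have hp : HasFDerivAt (pr R) (fderiv ℝ (pr R) (io z)) (io z) := (pr_diff R hX).hasFDerivAt
  have hr : HasFDerivAt ρ (fderiv ℝ ρ z) (pr R (io z)) := by
    rw [pr_io h]
    exact hz.hasFDerivAt
  have h1 : fderiv ℝ (ff R ρ) (io z) = (fderiv ℝ ρ z).comp (fderiv ℝ (pr R) (io z)) :=
    (hr.comp (io z) hp).fderiv
  have h2 : ∀ w : ℍ[ℝ] × E, fderiv ℝ (ff R ρ) (io z) w = fderiv ℝ ρ z (w.2 - R w.1 z) := by
    intro w
    rw [h1, ContinuousLinearMap.comp_apply, Dpr_io h]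
  have h3 : ∀ v : E, inner ℝ (gradient ρ z) v = fderiv ℝ ρ z v := by
    intro v
    unfold gradient
    rw [InnerProductSpace.toDual_symm_apply]
  unfold GG
  refine Prod.ext ?_ ?_
  · refine ext_inner_right ℝ fun q => ?_
    show inner ℝ (-(InnerProductSpace.toDual ℝ ℍ[ℝ]).symm _) q = _
    rw [inner_neg_left, InnerProductSpace.toDual_symm_apply]
    show -(fderiv ℝ (ff R ρ) (io z) (q, 0)) = _
    rw [h2, real_inner_comm, ← h.inn, real_inner_comm, h3]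
    simp
  · refine ext_inner_right ℝ fun v => ?_
    show inner ℝ ((InnerProductSpace.toDual ℝ E).symm _) v = _
    rw [InnerProductSpace.toDual_symm_apply]
    show fderiv ℝ (ff R ρ) (io z) (0, v) = _
    rw [h2, h3]
    simp

theorem re_comm (a b : ℍ[ℝ]) : (a * b).re = (b * a).re := by
  simp only [Quaternion.re_mul]
  ring

/-- `|m u v| ≤ |u| |v|` -/
theorem Qs.m_le (h : Qs R m) (u v : E) : ‖m u v‖ ≤ ‖u‖ * ‖v‖ := by
  have h1 : ‖m u v‖ ^ 2 ≤ ‖u‖ * ‖v‖ * ‖m u v‖ := by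
    rw [← real_inner_self_eq_norm_sq, ← h.inn]
    calc inner ℝ (R (m u v) u) v ≤ ‖R (m u v) u‖ * ‖v‖ := real_inner_le_norm _ _
      _ = _ := by rw [h.norm]; ring
  by_cases h0 : ‖m u v‖ = 0
  · rw [h0]
    positivity
  · have h2 : 0 < ‖m u v‖ := lt_of_le_of_ne (norm_nonneg _) (Ne.symm h0)
    nlinarith

/-- `JH-D2` (d): `B` is positive definite on the orthogonal complement of the quaternionic line of `X` -/
theorem BQ_pos (h : Qs R m) {X w : ℍ[ℝ] × E} (hX : BQ E X X < 0)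
    (h1 : ∀ q, BQ E w (RL R q X) = 0) (hw : w ≠ 0) : 0 < BQ E w w := by
  obtain ⟨c, v⟩ := X
  obtain ⟨c', v'⟩ := w
  rw [BQ_apply] at hX ⊢
  simp only [BQ_apply, RL_apply] at h1
  dsimp only at hX h1 ⊢
  rw [real_inner_self_eq_norm_sq, real_inner_self_eq_norm_sq] at hX ⊢
  -- `m v v' = star c c'`
  have h2 : m v v' = star c * c' := by
    refine ext_inner_left ℝ fun q => ?_
    have h3 := h1 q
    rw [← h.inn, real_inner_comm]
    have h4 : inner ℝ c' (c * q) = inner ℝ q (star c * c') := by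
      rw [Quaternion.inner_def, Quaternion.inner_def, star_mul, star_mul, star_star]
      have e1 : (c' * (star q * star c)).re = ((star c * c') * star q).re := by
        rw [← mul_assoc]
        have := re_comm (c' * star q) (star c)
        rw [this, mul_assoc]
      have e2 : (star c * c' * star q).re = (q * (star c' * c)).re := by
        rw [← Quaternion.re_star]
        simp only [star_mul, star_star]
      rw [e1, e2]
    linarith
  have h3 : ‖c‖ * ‖c'‖ ≤ ‖v‖ * ‖v'‖ := by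
    have h4 := h.m_le v v'
    rwa [h2, norm_mul, norm_star] at h4
  have hc : ‖v‖ ^ 2 < ‖c‖ ^ 2 := by linarith
  have hcv : ‖v‖ < ‖c‖ := lt_of_pow_lt_pow_left₀ 2 (norm_nonneg _) hc
  have hv0 := norm_nonneg v
  have hc0 : 0 < ‖c‖ := lt_of_le_of_lt hv0 hcv
  by_cases hv' : v' = 0
  · exfalso
    rw [hv', norm_zero, mul_zero] at h3
    have h4 : ‖c'‖ = 0 := by
      have := norm_nonneg c'
      nlinarith
    exact hw (by rw [norm_eq_zero.1 h4, hv']; rfl)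
  · have hn := norm_pos_iff.2 hv'
    have h4 : ‖c‖ * ‖c'‖ < ‖c‖ * ‖v'‖ := lt_of_le_of_lt h3 (mul_lt_mul_of_pos_right hcv hn)
    have h5 : ‖c'‖ < ‖v'‖ := lt_of_mul_lt_mul_left h4 hc0.le
    have := norm_nonneg c'
    nlinarith

end Pool.Agent.Helper64.JH
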