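import Pool.Agent.Helper64.JH.D3
import Pool.Agent.Helper64.JH.D4
import Pool.Agent.Helper64.JH.D5
import Pool.Agent.Helper64.JH.D6
import Pool.Agent.Helper64.JH.D7
import Pool.Agent.Helper64.JH.D8
import Pool.Agent.Helper64.JH.D9
import Pool.Agent.Helper64.JH.D10
import Pool.Agent.Helper64.JH.D11
import Pool.Agent.Helper64.JH.D12
import Pool.Agent.Helper64.JH.D13

/-! # JH: all of part D -/
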