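import Pool.Agent.Helper77.JE.Cal
import Pool.Agent.Helper77.JE.Lev
import Pool.Agent.Helper75.ROT.ExH

/-! # JH: the quaternionic vector space and the cone (definitions)

`E` is a quaternionic right vector space with a compatible real inner product, `R q v = v q`, `m z v = star z · v`.
The cone is in `ℍ × E`, with the form `⟪v, v'⟫ - ⟪c, c'⟫`.
-/

set_option autoImplicit false
set_option linter.unusedSectionVars false
set_option linter.unusedVariables false

open Filter Topology Set Quaternion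
open scoped ContDiff

namespace Pool.Agent.Helper64.JH

open Pool.Agent.Helper77.JE

/-- conjugation -/
noncomputable def sc : ℍ[ℝ] →L[ℝ] ℍ[ℝ] :=
  LinearMap.toContinuousLinearMap
    { toFun := fun q => star q
      map_add' := fun a b => star_add a b
      map_smul' := fun c a => by ext <;> simp }

theorem sc_apply (q : ℍ[ℝ]) : sc q = star q := rfl

variable {E : Type*} [NormedAddCommGroup E] [InnerProductSpace ℝ E] [FiniteDimensional ℝ E]

/-- a right action of the quaternions `R q v = v q` and the hermitian product `m z v = star z · v` -/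
structure Qs (R : ℍ[ℝ] →L[ℝ] E →L[ℝ] E) (m : E →L[ℝ] E →L[ℝ] ℍ[ℝ]) : Prop where
  one : ∀ v, R 1 v = v
  mul : ∀ p q v, R q (R p v) = R (p * q) v
  adj : ∀ q u v, inner ℝ (R q u) v = inner ℝ u (R (star q) v)
  inn : ∀ q z v, inner ℝ (R q z) v = inner ℝ q (m z v)

variable {R : ℍ[ℝ] →L[ℝ] E →L[ℝ] E} {m : E →L[ℝ] E →L[ℝ] ℍ[ℝ]}

/-- a real quaternion acts as a scalar -/
theorem Qs.real (h : Qs R m) (c : ℝ) (v : E) : R (c : ℍ[ℝ]) v = c • v := by
  have h1 : ((c : ℝ) : ℍ[ℝ]) = c • (1 : ℍ[ℝ]) := by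
    ext <;> simp
  rw [h1, map_smul, ContinuousLinearMap.smul_apply, h.one]

theorem Qs.nsq (h : Qs R m) (q : ℍ[ℝ]) (u v : E) :
    inner ℝ (R q u) (R q v) = ‖q‖ ^ 2 * inner ℝ u v := by
  rw [h.adj, h.mul, Quaternion.self_mul_star, h.real, inner_smul_right,
    Quaternion.normSq_eq_norm_mul_self, sq]

theorem Qs.norm (h : Qs R m) (q : ℍ[ℝ]) (v : E) : ‖R q v‖ = ‖q‖ * ‖v‖ := by
  have h1 : ‖R q v‖ ^ 2 = (‖q‖ * ‖v‖) ^ 2 := by
    rw [← real_inner_self_eq_norm_sq, h.nsq, real_inner_self_eq_norm_sq, mul_pow]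
  exact (sq_eq_sq₀ (norm_nonneg _) (by positivity)).1 h1

/-- `Re` of a quaternion as the inner product with `1` -/
theorem inner_one_q (q : ℍ[ℝ]) : inner ℝ (1 : ℍ[ℝ]) q = q.re := by
  rw [Quaternion.inner_def]
  simp

theorem Qs.mR (h : Qs R m) (q : ℍ[ℝ]) (z v : E) : m z (R q v) = m z v * q := by
  refine ext_inner_left ℝ fun p => ?_
  have h1 : inner ℝ p (m z (R q v)) = inner ℝ (R p z) (R q v) := (h.inn p z (R q v)).symm
  have h2 : inner ℝ (R p z) (R q v) = inner ℝ (R (star q) (R p z)) v := by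
    rw [h.adj (star q) (R p z) v, star_star]
  have h3 : inner ℝ (R (p * star q) z) v = inner ℝ (p * star q) (m z v) := h.inn _ z v
  rw [h1, h2, h.mul, h3, Quaternion.inner_def, Quaternion.inner_def, star_mul, mul_assoc]

theorem Qs.mstar (h : Qs R m) (z v : E) : star (m z v) = m v z := by
  refine ext_inner_left ℝ fun q => ?_
  have h1 : inner ℝ q (m v z) = inner ℝ (R (star q) z) v := by
    rw [← h.inn, h.adj, real_inner_comm]
  have h2 : inner ℝ (R (star q) z) v = inner ℝ (star q) (m z v) := h.inn _ z v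
  rw [h1, h2, Quaternion.inner_def, Quaternion.inner_def, star_star]
  have h3 : (star q * star (m z v)).re = (star (m z v) * star q).re := by simp; ring
  have h4 : (star (m z v) * star q).re = (q * m z v).re := by
    rw [← star_mul, Quaternion.re_star]
  rw [h3, h4]

theorem Qs.mself (h : Qs R m) (z : E) : m z z = ((‖z‖ ^ 2 : ℝ) : ℍ[ℝ]) := by
  have h1 : star (m z z) = m z z := h.mstar z z
  have h2 : (m z z).re = ‖z‖ ^ 2 := by
    rw [← inner_one_q, ← h.inn, h.one, real_inner_self_eq_norm_sq]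
  have h3 : m z z = ((m z z).re : ℍ[ℝ]) := by
    rw [← Quaternion.star_eq_self]
    exact h1
  rw [h3, h2]

/-- the real inner product as a bilinear map -/
noncomputable def ipr (E : Type*) [NormedAddCommGroup E] [InnerProductSpace ℝ E] :
    E →L[ℝ] E →L[ℝ] ℝ := innerSL ℝ

/-- the form `⟪v, v'⟫ - ⟪c, c'⟫` on `ℍ × E` -/
noncomputable def BQ (E : Type*) [NormedAddCommGroup E] [InnerProductSpace ℝ E] :
    (ℍ[ℝ] × E) →L[ℝ] (ℍ[ℝ] × E) →L[ℝ] ℝ :=
  (ipr E).bilinearComp (ContinuousLinearMap.snd ℝ ℍ[ℝ] E) (ContinuousLinearMap.snd ℝ ℍ[ℝ] E) -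
    (ipr ℍ[ℝ]).bilinearComp (ContinuousLinearMap.fst ℝ ℍ[ℝ] E) (ContinuousLinearMap.fst ℝ ℍ[ℝ] E)

theorem BQ_apply (X Y : ℍ[ℝ] × E) :
    BQ E X Y = inner ℝ X.2 Y.2 - inner ℝ X.1 Y.1 := rfl

/-- right multiplication by `q`: `(c, v) ↦ (c q, v q)` -/
noncomputable def RL (R : ℍ[ℝ] →L[ℝ] E →L[ℝ] E) (q : ℍ[ℝ]) : (ℍ[ℝ] × E) →L[ℝ] (ℍ[ℝ] × E) :=
  (((ContinuousLinearMap.mul ℝ ℍ[ℝ]).flip q).comp (ContinuousLinearMap.fst ℝ ℍ[ℝ] E)).prod
    ((R q).comp (ContinuousLinearMap.snd ℝ ℍ[ℝ] E))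

theorem RL_apply (q : ℍ[ℝ]) (X : ℍ[ℝ] × E) : RL R q X = (X.1 * q, R q X.2) := rfl

theorem RL_add (p q : ℍ[ℝ]) : RL R (p + q) = RL R p + RL R q := by
  ext X <;> simp [RL_apply, mul_add]

theorem RL_smul (c : ℝ) (q : ℍ[ℝ]) : RL R (c • q) = c • RL R q := by
  refine ContinuousLinearMap.ext fun X => ?_
  rw [RL_apply, ContinuousLinearMap.smul_apply, RL_apply]
  refine Prod.ext ?_ ?_
  · simp
  · simp

theorem RL_mul (h : Qs R m) (p q : ℍ[ℝ]) (X : ℍ[ℝ] × E) : RL R q (RL R p X) = RL R (p * q) X := by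
  rw [RL_apply, RL_apply, RL_apply]
  exact Prod.ext (mul_assoc _ _ _) (h.mul _ _ _)

theorem RL_real (h : Qs R m) (c : ℝ) (X : ℍ[ℝ] × E) : RL R (c : ℍ[ℝ]) X = c • X := by
  rw [RL_apply]
  refine Prod.ext ?_ (h.real c X.2)
  simp [Quaternion.mul_coe_eq_smul]

/-- `JH-D0` (a) -/
theorem BQ_symm (X Y : ℍ[ℝ] × E) : BQ E X Y = BQ E Y X := by
  rw [BQ_apply, BQ_apply, real_inner_comm, real_inner_comm X.1]

/-- `JH-D0` (b) -/
theorem BQ_adj (h : Qs R m) (q : ℍ[ℝ]) (X Y : ℍ[ℝ] × E) :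
    BQ E (RL R q X) Y = BQ E X (RL R (star q) Y) := by
  rw [BQ_apply, BQ_apply, RL_apply, RL_apply, h.adj]
  simp only [Quaternion.inner_def, star_mul, star_star, mul_assoc]

/-- `JH-D0` (c) -/
theorem BQ_RL (h : Qs R m) (q : ℍ[ℝ]) (X Y : ℍ[ℝ] × E) :
    BQ E (RL R q X) (RL R q Y) = ‖q‖ ^ 2 * BQ E X Y := by
  rw [BQ_adj h, RL_mul h, Quaternion.self_mul_star, RL_real h, map_smul, smul_eq_mul,
    Quaternion.normSq_eq_norm_mul_self, sq]

/-- `JH-D0` (d): `u` an imaginary unit -/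
theorem hfQ (h : Qs R m) {u : ℍ[ℝ]} (hu : star u = -u) (h1 : ‖u‖ = 1) : Hf (BQ E) (RL R u) := by
  have huu : u * u = -1 := by
    have h2 := Quaternion.self_mul_star u
    rw [hu, Quaternion.normSq_eq_norm_mul_self, h1, mul_neg] at h2
    rw [← neg_eq_iff_eq_neg, h2]
    simp
  refine ⟨BQ_symm, fun X => ?_, fun X Y => ?_, fun X hX => ?_⟩
  · rw [RL_mul h, huu]
    have h3 : ((-1 : ℝ) : ℍ[ℝ]) = -1 := by simp
    rw [← h3, RL_real h, neg_one_smul]
  · rw [BQ_RL h, h1]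
    ring
  · have e1 := hX (X.1, 0)
    have e2 := hX (0, X.2)
    rw [BQ_apply] at e1 e2
    simp only [inner_zero_right, zero_sub, neg_eq_zero, inner_self_eq_zero, sub_zero] at e1 e2
    exact Prod.ext e1 e2

/-- the imaginary units -/
def uq : Fin 3 → ℍ[ℝ] := ![⟨0, 1, 0, 0⟩, ⟨0, 0, 1, 0⟩, ⟨0, 0, 0, 1⟩]

theorem uq_star (i : Fin 3) : star (uq i) = -uq i := by
  fin_cases i <;> ext <;> simp [uq]

theorem uq_norm (i : Fin 3) : ‖uq i‖ = 1 := by
  have h : ‖uq i‖ * ‖uq i‖ = 1 := by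
    rw [← Quaternion.normSq_eq_norm_mul_self]
    fin_cases i <;> simp [uq, Quaternion.normSq_def']
  nlinarith [norm_nonneg (uq i)]

/-- every quaternion is a combination of `1` and the units -/
theorem q_eq (q : ℍ[ℝ]) :
    q = q.re • (1 : ℍ[ℝ]) + ∑ i, inner ℝ (uq i) q • uq i := by
  simp only [Fin.sum_univ_three, Quaternion.inner_def]
  ext <;> simp [uq]

/-- the complex structures of the cone -/
noncomputable def JQ (R : ℍ[ℝ] →L[ℝ] E →L[ℝ] E) (i : Fin 3) : (ℍ[ℝ] × E) →L[ℝ] (ℍ[ℝ] × E) :=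
  RL R (uq i)

theorem hfJ (h : Qs R m) (i : Fin 3) : Hf (BQ E) (JQ R i) := hfQ h (uq_star i) (uq_norm i)

/-- orthogonality to `X` and all `J i X` is orthogonality to all `X q` -/
theorem orth_iff (h : Qs R m) (w X : ℍ[ℝ] × E) :
    (∀ q, BQ E w (RL R q X) = 0) ↔ BQ E w X = 0 ∧ ∀ i, BQ E w (JQ R i X) = 0 := by
  constructor
  · intro hq
    refine ⟨?_, fun i => hq _⟩
    have h1 := hq ((1 : ℝ) : ℍ[ℝ])
    rwa [RL_real h, one_smul] at h1
  · rintro ⟨h0, h1⟩ q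
    rw [q_eq q, RL_add, RL_smul]
    have e1 : RL R (∑ i, inner ℝ (uq i) q • uq i) = ∑ i, inner ℝ (uq i) q • RL R (uq i) := by
      simp only [Fin.sum_univ_three, RL_add, RL_smul]
    rw [e1]
    have e2 : RL R 1 X = X := by
      have := RL_real h 1 X
      simpa using this
    simp only [ContinuousLinearMap.add_apply, ContinuousLinearMap.smul_apply, e2, map_add, map_smul,
      ContinuousLinearMap.sum_apply, map_sum, smul_eq_mul, h0, mul_zero, zero_add]
    refine Finset.sum_eq_zero fun i _ => ?_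
    have := h1 i
    rw [JQ] at this
    rw [this, mul_zero]

end Pool.Agent.Helper64.JH
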